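import Pool.Agent.Helper293.Spl.Basic

set_option autoImplicit false

namespace Helper293.Spl

theorem affInd_of_det (A B C : ℝ × ℝ)
    (h : (B.1 - A.1) * (C.2 - A.2) - (C.1 - A.1) * (B.2 - A.2) ≠ 0) :
    AffineIndependent ℝ ![A, B, C] := by
  rw [affineIndependent_iff_of_fintype]
  intro w hw hs
  rw [Finset.weightedVSub_eq_linear_combination (hw := hw)] at hs
  simp only [Fin.sum_univ_three, Matrix.cons_val_zero, Matrix.cons_val_one] at hw hs
  have e1 := congrArg Prod.fst hs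
  have e2 := congrArg Prod.snd hs
  simp at e1 e2
  have h1 : w 1 * ((B.1 - A.1) * (C.2 - A.2) - (C.1 - A.1) * (B.2 - A.2)) = 0 := by
    have h0 : w 0 = - w 1 - w 2 := by linarith
    rw [h0] at e1 e2
    linear_combination (C.2 - A.2) * e1 - (C.1 - A.1) * e2
  have h2 : w 2 * ((B.1 - A.1) * (C.2 - A.2) - (C.1 - A.1) * (B.2 - A.2)) = 0 := by
    have h0 : w 0 = - w 1 - w 2 := by linarith
    rw [h0] at e1 e2
    linear_combination (B.1 - A.1) * e2 - (B.2 - A.2) * e1
  have h1' : w 1 = 0 := (mul_eq_zero.1 h1).resolve_right h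
  have h2' : w 2 = 0 := (mul_eq_zero.1 h2).resolve_right h
  have h0' : w 0 = 0 := by rw [h1', h2'] at hw; simpa using hw
  intro i
  fin_cases i
  · exact h0'
  · exact h1'
  · exact h2'

def detz (k : Fin 16) : ℤ :=
  (px (tv k 1) - px (tv k 0)) * (py (tv k 2) - py (tv k 0)) -
    (px (tv k 2) - px (tv k 0)) * (py (tv k 1) - py (tv k 0))

theorem detz_ne : ∀ k : Fin 16, detz k ≠ 0 := by decide +kernel

theorem tS_affInd (k : Fin 16) :
    AffineIndependent ℝ (Subtype.val : ↥((tS k : Finset (ℝ × ℝ)) : Set (ℝ × ℝ)) → ℝ × ℝ) := by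
  have h := affInd_of_det (pt (tv k 0)) (pt (tv k 1)) (pt (tv k 2)) (by
    have := detz_ne k
    unfold detz at this
    simp only [pt]
    exact_mod_cast this)
  have h2 := h.range
  have e : Set.range ![pt (tv k 0), pt (tv k 1), pt (tv k 2)] =
      ((tS k : Finset (ℝ × ℝ)) : Set (ℝ × ℝ)) := by
    ext x
    simp only [tS_coe, tri, Matrix.range_cons, Matrix.range_empty]
    simp [Set.image_insert_eq, Set.image_pair]
    tauto
  rw [← e]
  exact h2

theorem TT_simplex : ∀ t ∈ TT, t.card = 3 ∧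
    AffineIndependent ℝ (Subtype.val : ↥(t : Set (ℝ × ℝ)) → ℝ × ℝ) := by
  intro t ht
  obtain ⟨k, rfl⟩ := mem_TT.1 ht
  exact ⟨tS_card k, tS_affInd k⟩

end Helper293.Spl
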