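import Mathlib

set_option autoImplicit false

namespace Helper293.Spl

/-- integer coordinates of the eleven vertices -/
def px : Fin 11 → ℤ := ![-80, -80, 80, 80, -36, -36, -44, -44, -64, -39, 0]
def py : Fin 11 → ℤ := ![16, -16, 16, -16, 2, -2, 1, -1, 0, 0, 0]

/-- the sixteen triangles, as triples of vertex indices -/
def tv : Fin 16 → Fin 3 → Fin 11 :=
  ![![0,4,10], ![4,6,9], ![0,6,4], ![0,8,6], ![0,10,2],
    ![1,10,5], ![5,9,7], ![1,5,7], ![1,7,8], ![1,3,10],
    ![10,4,5], ![9,5,4], ![9,6,7], ![8,7,6], ![8,0,1], ![10,3,2]]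

def tri (k : Fin 16) : Finset (Fin 11) := {tv k 0, tv k 1, tv k 2}

noncomputable def pt (i : Fin 11) : ℝ × ℝ := ((px i : ℝ), (py i : ℝ))

theorem pt_inj : Function.Injective pt := by
  intro i j h
  have h1 : px i = px j := by
    have := congrArg Prod.fst h
    simpa [pt] using this
  have h2 : py i = py j := by
    have := congrArg Prod.snd h
    simpa [pt] using this
  clear h
  revert i j
  decide

noncomputable def ptE : Fin 11 ↪ ℝ × ℝ := ⟨pt, pt_inj⟩

noncomputable def tS (k : Fin 16) : Finset (ℝ × ℝ) := (tri k).map ptE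

theorem tri_inj : Function.Injective tri := by
  intro i j
  revert i j
  decide

theorem tS_inj : Function.Injective tS := by
  intro i j h
  exact tri_inj (Finset.map_injective ptE h)

noncomputable def TT : Finset (Finset (ℝ × ℝ)) := Finset.univ.map ⟨tS, tS_inj⟩

theorem mem_TT {t : Finset (ℝ × ℝ)} : t ∈ TT ↔ ∃ k, tS k = t := by
  simp [TT]

theorem tri_card (k : Fin 16) : (tri k).card = 3 := by
  revert k
  decide

theorem tS_card (k : Fin 16) : (tS k).card = 3 := by
  simp [tS, tri_card]

theorem tS_coe (k : Fin 16) : ((tS k : Finset (ℝ × ℝ)) : Set (ℝ × ℝ)) = pt '' (tri k : Set (Fin 11)) := by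
  simp [tS, ptE]

end Helper293.Spl
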