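import Mathlib

set_option autoImplicit false

namespace Helper293.Spl

def R : Set (ℝ × ℝ) := Set.Icc (-80) 80 ×ˢ Set.Icc (-16) 16

theorem R_interior : interior R = Set.Ioo (-80) 80 ×ˢ Set.Ioo (-16) 16 := by
  rw [R, interior_prod_eq, interior_Icc, interior_Icc]

theorem R_convex : Convex ℝ R := (convex_Icc _ _).prod (convex_Icc _ _)

theorem R_compact : IsCompact R := isCompact_Icc.prod isCompact_Icc

theorem R_homeo : Nonempty (R ≃ₜ Metric.closedBall (0 : EuclideanSpace ℝ (Fin 2)) 1) := by
  let e : (ℝ × ℝ) ≃L[ℝ] EuclideanSpace ℝ (Fin 2) :=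
    ContinuousLinearEquiv.ofFinrankEq (by simp)
  have hc : Convex ℝ (e '' R) := R_convex.linear_image e.toLinearEquiv.toLinearMap
  have hcomp : IsCompact (e '' R) := R_compact.image e.continuous
  have hint : (interior (e '' R)).Nonempty := by
    have : interior (e '' R) = e '' interior R := (e.toHomeomorph.image_interior R).symm
    rw [this, R_interior]
    exact ⟨e (0, 0), (0, 0), by simp, rfl⟩
  obtain ⟨h, -, h2, -⟩ := exists_homeomorph_image_interior_closure_frontier_eq_unitBall hc hint
    hcomp.isBounded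
  rw [hcomp.isClosed.closure_eq] at h2
  have f1 : R ≃ₜ (e '' R) := e.toHomeomorph.image R
  have f2 : (e '' R) ≃ₜ (h '' (e '' R)) := h.image _
  exact ⟨f1.trans (f2.trans (Homeomorph.setCongr h2))⟩

end Helper293.Spl
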