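import Pool.Agent.Helper293.Spl.Cover
import Pool.Agent.Helper293.Spl.Rect

set_option autoImplicit false

namespace Helper293.Spl

theorem pt_mem_R (i : Fin 11) : pt i ∈ R := by
  have h : ∀ i : Fin 11, -80 ≤ px i ∧ px i ≤ 80 ∧ -16 ≤ py i ∧ py i ≤ 16 := by decide +kernel
  obtain ⟨h1, h2, h3, h4⟩ := h i
  refine ⟨⟨?_, ?_⟩, ⟨?_, ?_⟩⟩
  · show (-80 : ℝ) ≤ ((px i : ℤ) : ℝ)
    exact_mod_cast h1
  · show ((px i : ℤ) : ℝ) ≤ 80
    exact_mod_cast h2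
  · show (-16 : ℝ) ≤ ((py i : ℤ) : ℝ)
    exact_mod_cast h3
  · show ((py i : ℤ) : ℝ) ≤ 16
    exact_mod_cast h4

theorem Omega_eq : (⋃ t ∈ TT, convexHull ℝ (t : Set (ℝ × ℝ))) = R := by
  apply Set.Subset.antisymm
  · intro x hx
    simp only [Set.mem_iUnion] at hx
    obtain ⟨t, ht, hx⟩ := hx
    obtain ⟨k, rfl⟩ := mem_TT.1 ht
    rw [tS_coe] at hx
    refine convexHull_min ?_ R_convex hx
    rintro _ ⟨i, -, rfl⟩
    exact pt_mem_R i
  · rintro ⟨x, y⟩ ⟨⟨h1, h2⟩, ⟨h3, h4⟩⟩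
    obtain ⟨k, hk⟩ := cover x y h1 h2 h3 h4
    simp only [Set.mem_iUnion]
    refine ⟨tS k, mem_TT.2 ⟨k, rfl⟩, ?_⟩
    rw [tS_coe]
    exact hk

theorem pt_mem_int (i : Fin 11) : pt i ∈ interior R ↔ 4 ≤ (i : ℕ) := by
  have h : ∀ i : Fin 11, (-80 < px i ∧ px i < 80) ∧ (-16 < py i ∧ py i < 16) ↔ 4 ≤ (i : ℕ) := by
    decide +kernel
  rw [← h i, R_interior]
  simp only [pt, Set.mem_prod, Set.mem_Ioo]
  constructor
  · rintro ⟨⟨h1, h2⟩, h3, h4⟩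
    refine ⟨⟨?_, ?_⟩, ?_, ?_⟩
    · exact_mod_cast h1
    · exact_mod_cast h2
    · exact_mod_cast h3
    · exact_mod_cast h4
  · rintro ⟨⟨h1, h2⟩, h3, h4⟩
    refine ⟨⟨?_, ?_⟩, ?_, ?_⟩
    · exact_mod_cast h1
    · exact_mod_cast h2
    · exact_mod_cast h3
    · exact_mod_cast h4

theorem mid_mem_int (i j : Fin 11) : midpoint ℝ (pt i) (pt j) ∈ interior R ↔
    (-160 < px i + px j ∧ px i + px j < 160) ∧ (-32 < py i + py j ∧ py i + py j < 32) := by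
  have e : midpoint ℝ (pt i) (pt j) = (((px i : ℝ) + px j) / 2, ((py i : ℝ) + py j) / 2) := by
    rw [midpoint_eq_smul_add]
    ext
    · simp [pt]; ring
    · simp [pt]; ring
  rw [e, R_interior]
  simp only [Set.mem_prod, Set.mem_Ioo]
  constructor
  · rintro ⟨⟨h1, h2⟩, h3, h4⟩
    refine ⟨⟨?_, ?_⟩, ?_, ?_⟩
    · have : (-160 : ℝ) < (px i : ℝ) + px j := by linarith
      exact_mod_cast this
    · have : (px i : ℝ) + px j < 160 := by linarith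
      exact_mod_cast this
    · have : (-32 : ℝ) < (py i : ℝ) + py j := by linarith
      exact_mod_cast this
    · have : (py i : ℝ) + py j < 32 := by linarith
      exact_mod_cast this
  · rintro ⟨⟨h1, h2⟩, h3, h4⟩
    have h1' : (-160 : ℝ) < (px i : ℝ) + px j := by exact_mod_cast h1
    have h2' : (px i : ℝ) + px j < 160 := by exact_mod_cast h2
    have h3' : (-32 : ℝ) < (py i : ℝ) + py j := by exact_mod_cast h3
    have h4' : (py i : ℝ) + py j < 32 := by exact_mod_cast h4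
    refine ⟨⟨?_, ?_⟩, ?_, ?_⟩ <;> linarith

theorem mem_tS {k : Fin 16} {v : ℝ × ℝ} : v ∈ tS k ↔ ∃ i ∈ tri k, pt i = v := by
  simp [tS, ptE]

theorem vert_set : {v : ℝ × ℝ | (∃ t ∈ TT, v ∈ t) ∧ v ∈ interior R} =
    pt '' (((Finset.univ : Finset (Fin 11)).filter (fun i => 4 ≤ (i : ℕ)) : Finset (Fin 11)) :
      Set (Fin 11)) := by
  ext v
  simp only [Set.mem_ofPred_eq, Set.mem_image, Finset.mem_coe, Finset.mem_filter, Finset.mem_univ,
    true_and]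
  constructor
  · rintro ⟨⟨t, ht, hv⟩, hi⟩
    obtain ⟨k, rfl⟩ := mem_TT.1 ht
    obtain ⟨i, -, rfl⟩ := mem_tS.1 hv
    exact ⟨i, (pt_mem_int i).1 hi, rfl⟩
  · rintro ⟨i, hi, rfl⟩
    refine ⟨?_, (pt_mem_int i).2 hi⟩
    have h : ∀ i : Fin 11, ∃ k, i ∈ tri k := by decide +kernel
    obtain ⟨k, hk⟩ := h i
    exact ⟨tS k, mem_TT.2 ⟨k, rfl⟩, mem_tS.2 ⟨i, hk, rfl⟩⟩

theorem vert_card : {v : ℝ × ℝ | (∃ t ∈ TT, v ∈ t) ∧ v ∈ interior R}.ncard = 7 := by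
  rw [vert_set, Set.ncard_image_of_injective _ pt_inj, Set.ncard_coe_finset]
  decide +kernel

/-- interior edges, as index pairs -/
def edg : Finset (Finset (Fin 11)) :=
  ((Finset.univ : Finset (Fin 11)).powersetCard 2).filter (fun e => (∃ k, e ⊆ tri k) ∧
    ∀ i ∈ e, ∀ j ∈ e, i ≠ j →
      ((-160 < px i + px j ∧ px i + px j < 160) ∧ (-32 < py i + py j ∧ py i + py j < 32)))

theorem edge_set : {e : Finset (ℝ × ℝ) | e.card = 2 ∧ (∃ t ∈ TT, e ⊆ t) ∧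
      ∀ a ∈ e, ∀ b ∈ e, a ≠ b → midpoint ℝ a b ∈ interior R} =
    (Finset.map ptE) '' (edg : Set (Finset (Fin 11))) := by
  ext e
  simp only [Set.mem_ofPred_eq, Set.mem_image, Finset.mem_coe, edg, Finset.mem_filter,
    Finset.mem_powersetCard, Finset.subset_univ, true_and]
  constructor
  · rintro ⟨hc, ⟨t, ht, he⟩, hm⟩
    obtain ⟨k, rfl⟩ := mem_TT.1 ht
    obtain ⟨u, hu, rfl⟩ := Finset.subset_map_iff.1 he
    refine ⟨u, ⟨by simpa using hc, ⟨k, hu⟩, ?_⟩, rfl⟩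
    intro i hi j hj hij
    rw [← mid_mem_int]
    exact hm _ (Finset.mem_map_of_mem ptE hi) _ (Finset.mem_map_of_mem ptE hj)
      (fun h => hij (pt_inj h))
  · rintro ⟨u, ⟨hc, ⟨k, hu⟩, hm⟩, rfl⟩
    refine ⟨by simpa using hc, ⟨tS k, mem_TT.2 ⟨k, rfl⟩, Finset.map_subset_map.2 hu⟩, ?_⟩
    intro a ha b hb hab
    obtain ⟨i, hi, rfl⟩ := Finset.mem_map.1 ha
    obtain ⟨j, hj, rfl⟩ := Finset.mem_map.1 hb
    exact (mid_mem_int i j).2 (hm i hi j hj (fun h => hab (by rw [h])))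

set_option maxRecDepth 100000 in
theorem edg_card : edg.card = 22 := by decide +kernel

theorem edge_card : {e : Finset (ℝ × ℝ) | e.card = 2 ∧ (∃ t ∈ TT, e ⊆ t) ∧
      ∀ a ∈ e, ∀ b ∈ e, a ≠ b → midpoint ℝ a b ∈ interior R}.ncard = 22 := by
  rw [edge_set, Set.ncard_image_of_injective _ (Finset.map_injective ptE), Set.ncard_coe_finset,
    edg_card]

end Helper293.Spl
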