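import Pool.Agent.Helper293.Spl.Basic

set_option autoImplicit false

namespace Helper293.Spl

/-- signed area functional -/
def bar (A B X : ℝ × ℝ) : ℝ := (B.1 - A.1) * (X.2 - A.2) - (X.1 - A.1) * (B.2 - A.2)

theorem mem_of_bar (A B C X : ℝ × ℝ) (hD : 0 < bar A B C) (h1 : 0 ≤ bar A B X)
    (h2 : 0 ≤ bar B C X) (h3 : 0 ≤ bar C A X) : X ∈ convexHull ℝ ({A, B, C} : Set (ℝ × ℝ)) := by
  have hs : bar A B X + bar B C X + bar C A X = bar A B C := by unfold bar; ring
  have hA : A ∈ convexHull ℝ ({A, B, C} : Set (ℝ × ℝ)) := subset_convexHull ℝ _ (by simp)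
  have hB : B ∈ convexHull ℝ ({A, B, C} : Set (ℝ × ℝ)) := subset_convexHull ℝ _ (by simp)
  have hC : C ∈ convexHull ℝ ({A, B, C} : Set (ℝ × ℝ)) := subset_convexHull ℝ _ (by simp)
  have hX : X = ∑ i : Fin 3, (![bar B C X / bar A B C, bar C A X / bar A B C,
      bar A B X / bar A B C] i) • (![A, B, C] i) := by
    have hD' := hD.ne'
    simp only [Fin.sum_univ_three, Matrix.cons_val_zero, Matrix.cons_val_one, Matrix.cons_val_two,
      Matrix.head_cons, Matrix.tail_cons]
    ext
    · simp only [Prod.fst_add, Prod.smul_fst, smul_eq_mul]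
      field_simp
      unfold bar
      ring
    · simp only [Prod.snd_add, Prod.smul_snd, smul_eq_mul]
      field_simp
      unfold bar
      ring
  rw [hX]
  apply (convex_convexHull ℝ _).sum_mem
  · intro i _
    fin_cases i
    · exact div_nonneg h2 hD.le
    · exact div_nonneg h3 hD.le
    · exact div_nonneg h1 hD.le
  · simp only [Fin.sum_univ_three, Matrix.cons_val_zero, Matrix.cons_val_one, Matrix.cons_val_two,
      Matrix.head_cons, Matrix.tail_cons]
    rw [← add_div, ← add_div, div_eq_one_iff_eq hD.ne']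
    linarith
  · intro i _
    fin_cases i
    · exact hA
    · exact hB
    · exact hC

theorem tri_image (k : Fin 16) : pt '' (tri k : Set (Fin 11)) =
    {pt (tv k 0), pt (tv k 1), pt (tv k 2)} := by
  simp [tri, Set.image_insert_eq]

theorem pt_0 : pt 0 = (-80, 16) := by
  have h1 : px 0 = -80 := rfl
  have h2 : py 0 = 16 := rfl
  simp only [pt, h1, h2]
  norm_num

theorem pt_1 : pt 1 = (-80, -16) := by
  have h1 : px 1 = -80 := rfl
  have h2 : py 1 = -16 := rfl
  simp only [pt, h1, h2]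
  norm_num

theorem pt_2 : pt 2 = (80, 16) := by
  have h1 : px 2 = 80 := rfl
  have h2 : py 2 = 16 := rfl
  simp only [pt, h1, h2]
  norm_num

theorem pt_3 : pt 3 = (80, -16) := by
  have h1 : px 3 = 80 := rfl
  have h2 : py 3 = -16 := rfl
  simp only [pt, h1, h2]
  norm_num

theorem pt_4 : pt 4 = (-36, 2) := by
  have h1 : px 4 = -36 := rfl
  have h2 : py 4 = 2 := rfl
  simp only [pt, h1, h2]
  norm_num

theorem pt_5 : pt 5 = (-36, -2) := by
  have h1 : px 5 = -36 := rfl
  have h2 : py 5 = -2 := rfl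
  simp only [pt, h1, h2]
  norm_num

theorem pt_6 : pt 6 = (-44, 1) := by
  have h1 : px 6 = -44 := rfl
  have h2 : py 6 = 1 := rfl
  simp only [pt, h1, h2]
  norm_num

theorem pt_7 : pt 7 = (-44, -1) := by
  have h1 : px 7 = -44 := rfl
  have h2 : py 7 = -1 := rfl
  simp only [pt, h1, h2]
  norm_num

theorem pt_8 : pt 8 = (-64, 0) := by
  have h1 : px 8 = -64 := rfl
  have h2 : py 8 = 0 := rfl
  simp only [pt, h1, h2]
  norm_num

theorem pt_9 : pt 9 = (-39, 0) := by
  have h1 : px 9 = -39 := rfl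
  have h2 : py 9 = 0 := rfl
  simp only [pt, h1, h2]
  norm_num

theorem pt_10 : pt 10 = (0, 0) := by
  have h1 : px 10 = 0 := rfl
  have h2 : py 10 = 0 := rfl
  simp only [pt, h1, h2]
  norm_num

theorem mem0 (x y : ℝ) (h0 : 0 ≤ (44 : ℝ) * (y - (16)) - (x - (-80)) * (-14))
    (h1 : 0 ≤ (36 : ℝ) * (y - (2)) - (x - (-36)) * (-2))
    (h2 : 0 ≤ (-80 : ℝ) * (y - (0)) - (x - (0)) * (16)) :
    (x, y) ∈ convexHull ℝ (pt '' (tri 0 : Set (Fin 11))) := by
  rw [tri_image, show tv 0 0 = 0 from rfl, show tv 0 1 = 4 from rfl, show tv 0 2 = 10 from rfl,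
    pt_0, pt_4, pt_10]
  apply mem_of_bar
  · norm_num [bar]
  · simp only [bar]
    linarith
  · simp only [bar]
    linarith
  · simp only [bar]
    linarith

theorem mem1 (x y : ℝ) (h0 : 0 ≤ (-8 : ℝ) * (y - (2)) - (x - (-36)) * (-1))
    (h1 : 0 ≤ (5 : ℝ) * (y - (1)) - (x - (-44)) * (-1))
    (h2 : 0 ≤ (3 : ℝ) * (y - (0)) - (x - (-39)) * (2)) :
    (x, y) ∈ convexHull ℝ (pt '' (tri 1 : Set (Fin 11))) := by
  rw [tri_image, show tv 1 0 = 4 from rfl, show tv 1 1 = 6 from rfl, show tv 1 2 = 9 from rfl,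
    pt_4, pt_6, pt_9]
  apply mem_of_bar
  · norm_num [bar]
  · simp only [bar]
    linarith
  · simp only [bar]
    linarith
  · simp only [bar]
    linarith

theorem mem2 (x y : ℝ) (h0 : 0 ≤ (36 : ℝ) * (y - (16)) - (x - (-80)) * (-15))
    (h1 : 0 ≤ (8 : ℝ) * (y - (1)) - (x - (-44)) * (1))
    (h2 : 0 ≤ (-44 : ℝ) * (y - (2)) - (x - (-36)) * (14)) :
    (x, y) ∈ convexHull ℝ (pt '' (tri 2 : Set (Fin 11))) := by
  rw [tri_image, show tv 2 0 = 0 from rfl, show tv 2 1 = 6 from rfl, show tv 2 2 = 4 from rfl,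
    pt_0, pt_6, pt_4]
  apply mem_of_bar
  · norm_num [bar]
  · simp only [bar]
    linarith
  · simp only [bar]
    linarith
  · simp only [bar]
    linarith

theorem mem3 (x y : ℝ) (h0 : 0 ≤ (16 : ℝ) * (y - (16)) - (x - (-80)) * (-16))
    (h1 : 0 ≤ (20 : ℝ) * (y - (0)) - (x - (-64)) * (1))
    (h2 : 0 ≤ (-36 : ℝ) * (y - (1)) - (x - (-44)) * (15)) :
    (x, y) ∈ convexHull ℝ (pt '' (tri 3 : Set (Fin 11))) := by
  rw [tri_image, show tv 3 0 = 0 from rfl, show tv 3 1 = 8 from rfl, show tv 3 2 = 6 from rfl,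
    pt_0, pt_8, pt_6]
  apply mem_of_bar
  · norm_num [bar]
  · simp only [bar]
    linarith
  · simp only [bar]
    linarith
  · simp only [bar]
    linarith

theorem mem4 (x y : ℝ) (h0 : 0 ≤ (80 : ℝ) * (y - (16)) - (x - (-80)) * (-16))
    (h1 : 0 ≤ (80 : ℝ) * (y - (0)) - (x - (0)) * (16))
    (h2 : 0 ≤ (-160 : ℝ) * (y - (16)) - (x - (80)) * (0)) :
    (x, y) ∈ convexHull ℝ (pt '' (tri 4 : Set (Fin 11))) := by
  rw [tri_image, show tv 4 0 = 0 from rfl, show tv 4 1 = 10 from rfl, show tv 4 2 = 2 from rfl,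
    pt_0, pt_10, pt_2]
  apply mem_of_bar
  · norm_num [bar]
  · simp only [bar]
    linarith
  · simp only [bar]
    linarith
  · simp only [bar]
    linarith

theorem mem5 (x y : ℝ) (h0 : 0 ≤ (80 : ℝ) * (y - (-16)) - (x - (-80)) * (16))
    (h1 : 0 ≤ (-36 : ℝ) * (y - (0)) - (x - (0)) * (-2))
    (h2 : 0 ≤ (-44 : ℝ) * (y - (-2)) - (x - (-36)) * (-14)) :
    (x, y) ∈ convexHull ℝ (pt '' (tri 5 : Set (Fin 11))) := by
  rw [tri_image, show tv 5 0 = 1 from rfl, show tv 5 1 = 10 from rfl, show tv 5 2 = 5 from rfl,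
    pt_1, pt_10, pt_5]
  apply mem_of_bar
  · norm_num [bar]
  · simp only [bar]
    linarith
  · simp only [bar]
    linarith
  · simp only [bar]
    linarith

theorem mem6 (x y : ℝ) (h0 : 0 ≤ (-3 : ℝ) * (y - (-2)) - (x - (-36)) * (2))
    (h1 : 0 ≤ (-5 : ℝ) * (y - (0)) - (x - (-39)) * (-1))
    (h2 : 0 ≤ (8 : ℝ) * (y - (-1)) - (x - (-44)) * (-1)) :
    (x, y) ∈ convexHull ℝ (pt '' (tri 6 : Set (Fin 11))) := by
  rw [tri_image, show tv 6 0 = 5 from rfl, show tv 6 1 = 9 from rfl, show tv 6 2 = 7 from rfl,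
    pt_5, pt_9, pt_7]
  apply mem_of_bar
  · norm_num [bar]
  · simp only [bar]
    linarith
  · simp only [bar]
    linarith
  · simp only [bar]
    linarith

theorem mem7 (x y : ℝ) (h0 : 0 ≤ (44 : ℝ) * (y - (-16)) - (x - (-80)) * (14))
    (h1 : 0 ≤ (-8 : ℝ) * (y - (-2)) - (x - (-36)) * (1))
    (h2 : 0 ≤ (-36 : ℝ) * (y - (-1)) - (x - (-44)) * (-15)) :
    (x, y) ∈ convexHull ℝ (pt '' (tri 7 : Set (Fin 11))) := by
  rw [tri_image, show tv 7 0 = 1 from rfl, show tv 7 1 = 5 from rfl, show tv 7 2 = 7 from rfl,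
    pt_1, pt_5, pt_7]
  apply mem_of_bar
  · norm_num [bar]
  · simp only [bar]
    linarith
  · simp only [bar]
    linarith
  · simp only [bar]
    linarith

theorem mem8 (x y : ℝ) (h0 : 0 ≤ (36 : ℝ) * (y - (-16)) - (x - (-80)) * (15))
    (h1 : 0 ≤ (-20 : ℝ) * (y - (-1)) - (x - (-44)) * (1))
    (h2 : 0 ≤ (-16 : ℝ) * (y - (0)) - (x - (-64)) * (-16)) :
    (x, y) ∈ convexHull ℝ (pt '' (tri 8 : Set (Fin 11))) := by
  rw [tri_image, show tv 8 0 = 1 from rfl, show tv 8 1 = 7 from rfl, show tv 8 2 = 8 from rfl,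
    pt_1, pt_7, pt_8]
  apply mem_of_bar
  · norm_num [bar]
  · simp only [bar]
    linarith
  · simp only [bar]
    linarith
  · simp only [bar]
    linarith

theorem mem9 (x y : ℝ) (h0 : 0 ≤ (160 : ℝ) * (y - (-16)) - (x - (-80)) * (0))
    (h1 : 0 ≤ (-80 : ℝ) * (y - (-16)) - (x - (80)) * (16))
    (h2 : 0 ≤ (-80 : ℝ) * (y - (0)) - (x - (0)) * (-16)) :
    (x, y) ∈ convexHull ℝ (pt '' (tri 9 : Set (Fin 11))) := by
  rw [tri_image, show tv 9 0 = 1 from rfl, show tv 9 1 = 3 from rfl, show tv 9 2 = 10 from rfl,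
    pt_1, pt_3, pt_10]
  apply mem_of_bar
  · norm_num [bar]
  · simp only [bar]
    linarith
  · simp only [bar]
    linarith
  · simp only [bar]
    linarith

theorem mem10 (x y : ℝ) (h0 : 0 ≤ (-36 : ℝ) * (y - (0)) - (x - (0)) * (2))
    (h1 : 0 ≤ (0 : ℝ) * (y - (2)) - (x - (-36)) * (-4))
    (h2 : 0 ≤ (36 : ℝ) * (y - (-2)) - (x - (-36)) * (2)) :
    (x, y) ∈ convexHull ℝ (pt '' (tri 10 : Set (Fin 11))) := by
  rw [tri_image, show tv 10 0 = 10 from rfl, show tv 10 1 = 4 from rfl, show tv 10 2 = 5 from rfl,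
    pt_10, pt_4, pt_5]
  apply mem_of_bar
  · norm_num [bar]
  · simp only [bar]
    linarith
  · simp only [bar]
    linarith
  · simp only [bar]
    linarith

theorem mem11 (x y : ℝ) (h0 : 0 ≤ (3 : ℝ) * (y - (0)) - (x - (-39)) * (-2))
    (h1 : 0 ≤ (0 : ℝ) * (y - (-2)) - (x - (-36)) * (4))
    (h2 : 0 ≤ (-3 : ℝ) * (y - (2)) - (x - (-36)) * (-2)) :
    (x, y) ∈ convexHull ℝ (pt '' (tri 11 : Set (Fin 11))) := by
  rw [tri_image, show tv 11 0 = 9 from rfl, show tv 11 1 = 5 from rfl, show tv 11 2 = 4 from rfl,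
    pt_9, pt_5, pt_4]
  apply mem_of_bar
  · norm_num [bar]
  · simp only [bar]
    linarith
  · simp only [bar]
    linarith
  · simp only [bar]
    linarith

theorem mem12 (x y : ℝ) (h0 : 0 ≤ (-5 : ℝ) * (y - (0)) - (x - (-39)) * (1))
    (h1 : 0 ≤ (0 : ℝ) * (y - (1)) - (x - (-44)) * (-2))
    (h2 : 0 ≤ (5 : ℝ) * (y - (-1)) - (x - (-44)) * (1)) :
    (x, y) ∈ convexHull ℝ (pt '' (tri 12 : Set (Fin 11))) := by
  rw [tri_image, show tv 12 0 = 9 from rfl, show tv 12 1 = 6 from rfl, show tv 12 2 = 7 from rfl,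
    pt_9, pt_6, pt_7]
  apply mem_of_bar
  · norm_num [bar]
  · simp only [bar]
    linarith
  · simp only [bar]
    linarith
  · simp only [bar]
    linarith

theorem mem13 (x y : ℝ) (h0 : 0 ≤ (20 : ℝ) * (y - (0)) - (x - (-64)) * (-1))
    (h1 : 0 ≤ (0 : ℝ) * (y - (-1)) - (x - (-44)) * (2))
    (h2 : 0 ≤ (-20 : ℝ) * (y - (1)) - (x - (-44)) * (-1)) :
    (x, y) ∈ convexHull ℝ (pt '' (tri 13 : Set (Fin 11))) := by
  rw [tri_image, show tv 13 0 = 8 from rfl, show tv 13 1 = 7 from rfl, show tv 13 2 = 6 from rfl,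
    pt_8, pt_7, pt_6]
  apply mem_of_bar
  · norm_num [bar]
  · simp only [bar]
    linarith
  · simp only [bar]
    linarith
  · simp only [bar]
    linarith

theorem mem14 (x y : ℝ) (h0 : 0 ≤ (-16 : ℝ) * (y - (0)) - (x - (-64)) * (16))
    (h1 : 0 ≤ (0 : ℝ) * (y - (16)) - (x - (-80)) * (-32))
    (h2 : 0 ≤ (16 : ℝ) * (y - (-16)) - (x - (-80)) * (16)) :
    (x, y) ∈ convexHull ℝ (pt '' (tri 14 : Set (Fin 11))) := by
  rw [tri_image, show tv 14 0 = 8 from rfl, show tv 14 1 = 0 from rfl, show tv 14 2 = 1 from rfl,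
    pt_8, pt_0, pt_1]
  apply mem_of_bar
  · norm_num [bar]
  · simp only [bar]
    linarith
  · simp only [bar]
    linarith
  · simp only [bar]
    linarith

theorem mem15 (x y : ℝ) (h0 : 0 ≤ (80 : ℝ) * (y - (0)) - (x - (0)) * (-16))
    (h1 : 0 ≤ (0 : ℝ) * (y - (-16)) - (x - (80)) * (32))
    (h2 : 0 ≤ (-80 : ℝ) * (y - (16)) - (x - (80)) * (-16)) :
    (x, y) ∈ convexHull ℝ (pt '' (tri 15 : Set (Fin 11))) := by
  rw [tri_image, show tv 15 0 = 10 from rfl, show tv 15 1 = 3 from rfl, show tv 15 2 = 2 from rfl,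
    pt_10, pt_3, pt_2]
  apply mem_of_bar
  · norm_num [bar]
  · simp only [bar]
    linarith
  · simp only [bar]
    linarith
  · simp only [bar]
    linarith

theorem cover (x y : ℝ) (h1 : -80 ≤ x) (h2 : x ≤ 80) (h3 : -16 ≤ y) (h4 : y ≤ 16) :
    ∃ k : Fin 16, (x, y) ∈ convexHull ℝ (pt '' (tri k : Set (Fin 11))) := by
  rcases le_total ((1 : ℝ) * x + (-5) * y) (0) with h5 | h5
  · rcases le_total ((1 : ℝ) * x + (5) * y) (0) with h6 | h6
    · rcases le_total ((1 : ℝ) * x + (0) * y) (-36) with h7 | h7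
      · rcases le_total ((7 : ℝ) * x + (-22) * y) (-208) with h8 | h8
        · rcases le_total ((7 : ℝ) * x + (22) * y) (-208) with h9 | h9
          · rcases le_total ((1 : ℝ) * x + (0) * y) (-44) with h10 | h10
            · rcases le_total ((5 : ℝ) * x + (-12) * y) (-208) with h11 | h11
              · rcases le_total ((5 : ℝ) * x + (12) * y) (-208) with h12 | h12
                · rcases le_total ((1 : ℝ) * x + (-20) * y) (-64) with h13 | h13
                  · rcases le_total ((1 : ℝ) * x + (1) * y) (-64) with h14 | h14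
                    · exact ⟨14, mem14 x y (by linarith) (by linarith) (by linarith)⟩
                    · exact ⟨3, mem3 x y (by linarith) (by linarith) (by linarith)⟩
                  · rcases le_total ((1 : ℝ) * x + (-1) * y) (-64) with h14 | h14
                    · exact ⟨14, mem14 x y (by linarith) (by linarith) (by linarith)⟩
                    · rcases le_total ((1 : ℝ) * x + (20) * y) (-64) with h15 | h15
                      · exact ⟨8, mem8 x y (by linarith) (by linarith) (by linarith)⟩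
                      · exact ⟨13, mem13 x y (by linarith) (by linarith) (by linarith)⟩
                · exact ⟨2, mem2 x y (by linarith) (by linarith) (by linarith)⟩
              · exact ⟨7, mem7 x y (by linarith) (by linarith) (by linarith)⟩
            · rcases le_total ((1 : ℝ) * x + (-8) * y) (-52) with h11 | h11
              · exact ⟨2, mem2 x y (by linarith) (by linarith) (by linarith)⟩
              · rcases le_total ((1 : ℝ) * x + (8) * y) (-52) with h12 | h12
                · exact ⟨7, mem7 x y (by linarith) (by linarith) (by linarith)⟩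
                · rcases le_total ((1 : ℝ) * x + (-5) * y) (-39) with h13 | h13
                  · rcases le_total ((1 : ℝ) * x + (5) * y) (-39) with h14 | h14
                    · exact ⟨12, mem12 x y (by linarith) (by linarith) (by linarith)⟩
                    · rcases le_total ((2 : ℝ) * x + (-3) * y) (-78) with h15 | h15
                      · exact ⟨1, mem1 x y (by linarith) (by linarith) (by linarith)⟩
                      · exact ⟨11, mem11 x y (by linarith) (by linarith) (by linarith)⟩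
                  · rcases le_total ((2 : ℝ) * x + (3) * y) (-78) with h14 | h14
                    · exact ⟨6, mem6 x y (by linarith) (by linarith) (by linarith)⟩
                    · exact ⟨11, mem11 x y (by linarith) (by linarith) (by linarith)⟩
          · exact ⟨0, mem0 x y (by linarith) (by linarith) (by linarith)⟩
        · exact ⟨5, mem5 x y (by linarith) (by linarith) (by linarith)⟩
      · rcases le_total ((1 : ℝ) * x + (-18) * y) (0) with h8 | h8
        · rcases le_total ((1 : ℝ) * x + (18) * y) (0) with h9 | h9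
          · exact ⟨10, mem10 x y (by linarith) (by linarith) (by linarith)⟩
          · exact ⟨0, mem0 x y (by linarith) (by linarith) (by linarith)⟩
        · exact ⟨5, mem5 x y (by linarith) (by linarith) (by linarith)⟩
    · exact ⟨4, mem4 x y (by linarith) (by linarith) (by linarith)⟩
  · rcases le_total ((1 : ℝ) * x + (5) * y) (0) with h6 | h6
    · exact ⟨9, mem9 x y (by linarith) (by linarith) (by linarith)⟩
    · exact ⟨15, mem15 x y (by linarith) (by linarith) (by linarith)⟩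

end Helper293.Spl
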