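import Pool.Agent.Helper293.Spl.Count

set_option autoImplicit false

namespace Helper293.Spl

def dz (i a b : Fin 11) : ℤ :=
  (px a - px i) * (py b - py i) - (px b - px i) * (py a - py i)

/-- three neighbours with pairwise different slopes -/
def nb (i : Fin 11) : Fin 3 → Fin 11 :=
  (![![0,0,0], ![0,0,0], ![0,0,0], ![0,0,0], ![0,6,9], ![1,7,9], ![0,4,9], ![1,5,9],
    ![0,1,6], ![4,5,6], ![0,1,4]] : Fin 11 → Fin 3 → Fin 11) i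

theorem nb_ok : ∀ i : Fin 11, 4 ≤ (i : ℕ) →
    (∀ j : Fin 3, ∃ k, i ∈ tri k ∧ nb i j ∈ tri k) ∧
    dz i (nb i 0) (nb i 1) ≠ 0 ∧ dz i (nb i 1) (nb i 2) ≠ 0 ∧ dz i (nb i 0) (nb i 2) ≠ 0 := by
  decide +kernel

theorem par_det (i a b : Fin 11) (d : ℝ × ℝ) (h1 : ∃ c : ℝ, pt a - pt i = c • d)
    (h2 : ∃ c : ℝ, pt b - pt i = c • d) : dz i a b = 0 := by
  obtain ⟨c, hc⟩ := h1
  obtain ⟨c', hc'⟩ := h2
  have e1 := congrArg Prod.fst hc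
  have e2 := congrArg Prod.snd hc
  have e3 := congrArg Prod.fst hc'
  have e4 := congrArg Prod.snd hc'
  simp only [Prod.fst_sub, Prod.snd_sub, Prod.smul_fst, Prod.smul_snd, smul_eq_mul, pt] at e1 e2 e3 e4
  have : ((dz i a b : ℤ) : ℝ) = 0 := by
    unfold dz
    push_cast
    rw [e1, e2, e3, e4]
    ring
  exact_mod_cast this

theorem sing_empty : {v : ℝ × ℝ | (∃ t ∈ TT, v ∈ t) ∧ v ∈ interior R ∧
      ∃ d₁ d₂ : ℝ × ℝ, ∀ t ∈ TT, v ∈ t → ∀ w ∈ t,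
        (∃ c : ℝ, w - v = c • d₁) ∨ (∃ c : ℝ, w - v = c • d₂)} = ∅ := by
  apply Set.eq_empty_of_forall_notMem
  rintro v ⟨⟨t, ht, hv⟩, hi, d1, d2, hd⟩
  obtain ⟨k, rfl⟩ := mem_TT.1 ht
  obtain ⟨i, -, rfl⟩ := mem_tS.1 hv
  have hi' := (pt_mem_int i).1 hi
  obtain ⟨hj, h01, h12, h02⟩ := nb_ok i hi'
  have key : ∀ j : Fin 3, (∃ c : ℝ, pt (nb i j) - pt i = c • d1) ∨
      (∃ c : ℝ, pt (nb i j) - pt i = c • d2) := by
    intro j
    obtain ⟨l, hl1, hl2⟩ := hj j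
    exact hd (tS l) (mem_TT.2 ⟨l, rfl⟩) (mem_tS.2 ⟨i, hl1, rfl⟩) _ (mem_tS.2 ⟨_, hl2, rfl⟩)
  rcases key 0 with a | a <;> rcases key 1 with b | b <;> rcases key 2 with c | c
  · exact h01 (par_det _ _ _ _ a b)
  · exact h01 (par_det _ _ _ _ a b)
  · exact h02 (par_det _ _ _ _ a c)
  · exact h12 (par_det _ _ _ _ b c)
  · exact h12 (par_det _ _ _ _ b c)
  · exact h02 (par_det _ _ _ _ a c)
  · exact h01 (par_det _ _ _ _ a b)
  · exact h01 (par_det _ _ _ _ a b)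

end Helper293.Spl
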