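import Pool.Agent.Helper293.Spl.Match
import Pool.Agent.Helper293.Spl.Sing
import Pool.Agent.Helper293.Spl.AffInd

set_option autoImplicit false

namespace Helper293.Spl

open MvPolynomial

noncomputable def idx (t : TT) : Fin 16 := Classical.choose (mem_TT.1 t.2)

theorem idx_spec (t : TT) : tS (idx t) = (t : Finset (ℝ × ℝ)) := Classical.choose_spec (mem_TT.1 t.2)

theorem idx_tS (k : Fin 16) : idx ⟨tS k, mem_TT.2 ⟨k, rfl⟩⟩ = k :=
  tS_inj (idx_spec ⟨tS k, mem_TT.2 ⟨k, rfl⟩⟩)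

noncomputable def spl (j : Fin 28) : TT → MvPolynomial (Fin 2) ℝ := fun t => poly (cr j (idx t))

/-- the set of continuously differentiable piecewise cubics -/
def SS (T : Finset (Finset (ℝ × ℝ))) : Set (T → MvPolynomial (Fin 2) ℝ) :=
  {p : T → MvPolynomial (Fin 2) ℝ |
          (∀ t, (p t).totalDegree ≤ 3) ∧
          ∀ t s : T, ∀ x ∈ convexHull ℝ ((t : Finset (ℝ × ℝ)) : Set (ℝ × ℝ)) ∩
              convexHull ℝ ((s : Finset (ℝ × ℝ)) : Set (ℝ × ℝ)),
            MvPolynomial.eval ![x.1, x.2] (p t) = MvPolynomial.eval ![x.1, x.2] (p s) ∧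
            ∀ i : Fin 2, MvPolynomial.eval ![x.1, x.2] (MvPolynomial.pderiv i (p t)) =
              MvPolynomial.eval ![x.1, x.2] (MvPolynomial.pderiv i (p s))}

theorem spl_mem (j : Fin 28) : spl j ∈ SS TT := by
  refine ⟨fun t => deg_poly _, ?_⟩
  intro t s x hx
  rw [← idx_spec t, ← idx_spec s, tS_coe, tS_coe] at hx
  obtain ⟨h1, h2, h3⟩ := agree_all j (idx t) (idx s) x hx
  refine ⟨?_, ?_⟩
  · rw [spl, eval_poly, spl, eval_poly]
    exact h1
  · intro i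
    fin_cases i
    · show MvPolynomial.eval ![x.1, x.2] (MvPolynomial.pderiv 0 (spl j t)) =
        MvPolynomial.eval ![x.1, x.2] (MvPolynomial.pderiv 0 (spl j s))
      rw [spl, spl, eval_poly_x, eval_poly_x]
      exact h2
    · show MvPolynomial.eval ![x.1, x.2] (MvPolynomial.pderiv 1 (spl j t)) =
        MvPolynomial.eval ![x.1, x.2] (MvPolynomial.pderiv 1 (spl j s))
      rw [spl, spl, eval_poly_y, eval_poly_y]
      exact h3

theorem spl_indep : LinearIndependent ℝ spl := by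
  rw [Fintype.linearIndependent_iff]
  intro g hg i
  have h1 := congrFun hg ⟨tS (pivk i), mem_TT.2 ⟨pivk i, rfl⟩⟩
  simp only [Finset.sum_apply, Pi.smul_apply, spl, idx_tS, Pi.zero_apply] at h1
  rw [poly_lin] at h1
  have h2 := poly_zero _ h1 (pivm i)
  have h3 : ∀ j : Fin 28, j ≠ i → cr j (pivk i) (pivm i) = 0 := by
    intro j hj
    by_contra hne
    apply hj
    apply (piv_ok j i).1
    intro h0
    apply hne
    rw [cr, h0]
    simp
  have h4 : cr i (pivk i) (pivm i) ≠ 0 := by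
    have := (piv_ok i i).2 rfl
    rw [cr]
    exact_mod_cast this
  rw [Finset.sum_eq_single i (fun j _ hj => by rw [h3 j hj, mul_zero])
    (fun h => absurd (Finset.mem_univ i) h)] at h2
  exact (mul_eq_zero.1 h2).resolve_right h4

theorem finrank_ge : 28 ≤ Module.finrank ℝ (Submodule.span ℝ (SS TT)) := by
  haveI : Module.Finite ℝ (Submodule.span ℝ (SS TT)) := finite_span (SS TT) (fun p hp => hp.1)
  let v : Fin 28 → Submodule.span ℝ (SS TT) := fun j =>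
    ⟨spl j, Submodule.subset_span (spl_mem j)⟩
  have hv : LinearIndependent ℝ v := by
    apply LinearIndependent.of_comp (Submodule.span ℝ (SS TT)).subtype
    exact spl_indep
  simpa using hv.fintype_card_le_finrank

theorem not_main :
    ¬ (∀ (T : Finset (Finset (ℝ × ℝ))) (Ω : Set (ℝ × ℝ)),
    (∀ t ∈ T, t.card = 3 ∧ AffineIndependent ℝ (Subtype.val : ↥(t : Set (ℝ × ℝ)) → ℝ × ℝ)) →
    (∀ t ∈ T, ∀ s ∈ T, convexHull ℝ (t : Set (ℝ × ℝ)) ∩ convexHull ℝ (s : Set (ℝ × ℝ)) =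
        convexHull ℝ ((t : Set (ℝ × ℝ)) ∩ (s : Set (ℝ × ℝ)))) →
    Ω = ⋃ t ∈ T, convexHull ℝ (t : Set (ℝ × ℝ)) →
    Nonempty (Ω ≃ₜ Metric.closedBall (0 : EuclideanSpace ℝ (Fin 2)) 1) →
    (Module.finrank ℝ (Submodule.span ℝ
        {p : T → MvPolynomial (Fin 2) ℝ |
          (∀ t, (p t).totalDegree ≤ 3) ∧
          ∀ t s : T, ∀ x ∈ convexHull ℝ ((t : Finset (ℝ × ℝ)) : Set (ℝ × ℝ)) ∩
              convexHull ℝ ((s : Finset (ℝ × ℝ)) : Set (ℝ × ℝ)),
            MvPolynomial.eval ![x.1, x.2] (p t) = MvPolynomial.eval ![x.1, x.2] (p s) ∧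
            ∀ i : Fin 2, MvPolynomial.eval ![x.1, x.2] (MvPolynomial.pderiv i (p t)) =
              MvPolynomial.eval ![x.1, x.2] (MvPolynomial.pderiv i (p s))}) : ℤ)
      = 10 - 7 * ({v : ℝ × ℝ | (∃ t ∈ T, v ∈ t) ∧ v ∈ interior Ω}.ncard : ℤ)
        + 3 * ({e : Finset (ℝ × ℝ) | e.card = 2 ∧ (∃ t ∈ T, e ⊆ t) ∧
              ∀ a ∈ e, ∀ b ∈ e, a ≠ b → midpoint ℝ a b ∈ interior Ω}.ncard : ℤ)
        + ({v : ℝ × ℝ | (∃ t ∈ T, v ∈ t) ∧ v ∈ interior Ω ∧
              ∃ d₁ d₂ : ℝ × ℝ, ∀ t ∈ T, v ∈ t → ∀ w ∈ t,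
                (∃ c : ℝ, w - v = c • d₁) ∨ (∃ c : ℝ, w - v = c • d₂)}.ncard : ℤ)) := by
  intro H
  have h := H TT R TT_simplex TT_inter Omega_eq.symm R_homeo
  rw [vert_card, edge_card, sing_empty, Set.ncard_empty] at h
  have h2 := finrank_ge
  unfold SS at h2
  have h3 : (28 : ℤ) ≤ (Module.finrank ℝ (Submodule.span ℝ
        {p : TT → MvPolynomial (Fin 2) ℝ |
          (∀ t, (p t).totalDegree ≤ 3) ∧
          ∀ t s : TT, ∀ x ∈ convexHull ℝ ((t : Finset (ℝ × ℝ)) : Set (ℝ × ℝ)) ∩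
              convexHull ℝ ((s : Finset (ℝ × ℝ)) : Set (ℝ × ℝ)),
            MvPolynomial.eval ![x.1, x.2] (p t) = MvPolynomial.eval ![x.1, x.2] (p s) ∧
            ∀ i : Fin 2, MvPolynomial.eval ![x.1, x.2] (MvPolynomial.pderiv i (p t)) =
              MvPolynomial.eval ![x.1, x.2] (MvPolynomial.pderiv i (p s))}) : ℤ) := by
    exact_mod_cast h2
  rw [h] at h3
  norm_num at h3

end Helper293.Spl
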