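import Pool.Agent.Helper293.Spl.Final

set_option autoImplicit false

namespace Helper293.Spl

open MvPolynomial

theorem hasFDerivAt_ev (c : Fin 10 → ℝ) (y : ℝ × ℝ) :
    HasFDerivAt (fun z : ℝ × ℝ => ev c z.1 z.2)
      (evx c y.1 y.2 • ContinuousLinearMap.fst ℝ ℝ ℝ + evy c y.1 y.2 • ContinuousLinearMap.snd ℝ ℝ ℝ)
      y := by
  have hx : HasFDerivAt (fun z : ℝ × ℝ => z.1) (ContinuousLinearMap.fst ℝ ℝ ℝ) y := hasFDerivAt_fst
  have hy : HasFDerivAt (fun z : ℝ × ℝ => z.2) (ContinuousLinearMap.snd ℝ ℝ ℝ) y := hasFDerivAt_snd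
  have hxx := hx.mul hx
  have hxy := hx.mul hy
  have hyy := hy.mul hy
  have hxxx := hxx.mul hx
  have hxxy := hxx.mul hy
  have hxyy := hx.mul hyy
  have hyyy := hyy.mul hy
  have h := ((((((((((hasFDerivAt_const (c 0) y).add (hx.const_mul (c 1))).add
    (hy.const_mul (c 2))).add (hxx.const_mul (c 3))).add (hxy.const_mul (c 4))).add
    (hyy.const_mul (c 5))).add (hxxx.const_mul (c 6))).add (hxxy.const_mul (c 7))).add
    (hxyy.const_mul (c 8))).add (hyyy.const_mul (c 9)))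
  refine HasFDerivAt.congr_fderiv h ?_
  ext
  · simp [evx, evy]; ring
  · simp [evx, evy]; ring

theorem continuous_evx (c : Fin 10 → ℝ) : Continuous (fun z : ℝ × ℝ => evx c z.1 z.2) := by
  unfold evx; fun_prop

theorem continuous_evy (c : Fin 10 → ℝ) : Continuous (fun z : ℝ × ℝ => evy c z.1 z.2) := by
  unfold evy; fun_prop

/-- a cubic vanishing on a nondegenerate triangle is zero -/
theorem zero_of_triangle (d : Fin 10 → ℝ) (A B C : ℝ × ℝ)
    (h : (B.1 - A.1) * (C.2 - A.2) - (C.1 - A.1) * (B.2 - A.2) ≠ 0)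
    (hz : ∀ s t : ℝ, 0 ≤ s → s ≤ 1 / 2 → 0 ≤ t → t ≤ 1 / 2 →
      ev d (A.1 + s * (B.1 - A.1) + t * (C.1 - A.1)) (A.2 + s * (B.2 - A.2) + t * (C.2 - A.2)) = 0) :
    ∀ m, d m = 0 := by
  have h1 : ∀ s t : ℝ, 0 ≤ t → t ≤ 1 / 2 →
      ev d (A.1 + s * (B.1 - A.1) + t * (C.1 - A.1)) (A.2 + s * (B.2 - A.2) + t * (C.2 - A.2)) = 0 := by
    intro s t ht0 ht1
    have := ev_line d (A.1 + t * (C.1 - A.1)) (A.2 + t * (C.2 - A.2)) ((B.1 - A.1) / 6)
      ((B.2 - A.2) / 6) (by
        intro s hs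
        have hs' : 0 ≤ s / 6 ∧ s / 6 ≤ 1 / 2 := by
          rcases hs with rfl | rfl | rfl | rfl <;> norm_num
        have := hz (s / 6) t hs'.1 hs'.2 ht0 ht1
        convert this using 2 <;> ring) (6 * s)
    convert this using 2 <;> ring
  have h2 : ∀ s t : ℝ,
      ev d (A.1 + s * (B.1 - A.1) + t * (C.1 - A.1)) (A.2 + s * (B.2 - A.2) + t * (C.2 - A.2)) = 0 := by
    intro s t
    have := ev_line d (A.1 + s * (B.1 - A.1)) (A.2 + s * (B.2 - A.2)) ((C.1 - A.1) / 6)
      ((C.2 - A.2) / 6) (by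
        intro t ht
        have ht' : 0 ≤ t / 6 ∧ t / 6 ≤ 1 / 2 := by
          rcases ht with rfl | rfl | rfl | rfl <;> norm_num
        have := h1 s (t / 6) ht'.1 ht'.2
        convert this using 2 <;> ring) (6 * t)
    convert this using 2 <;> ring
  have h3 : ∀ x y : ℝ, ev d x y = 0 := by
    intro x y
    obtain ⟨s, t, hs, ht⟩ : ∃ s t : ℝ, A.1 + s * (B.1 - A.1) + t * (C.1 - A.1) = x ∧
        A.2 + s * (B.2 - A.2) + t * (C.2 - A.2) = y := by
      refine ⟨((x - A.1) * (C.2 - A.2) - (C.1 - A.1) * (y - A.2)) /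
        ((B.1 - A.1) * (C.2 - A.2) - (C.1 - A.1) * (B.2 - A.2)),
        ((B.1 - A.1) * (y - A.2) - (x - A.1) * (B.2 - A.2)) /
        ((B.1 - A.1) * (C.2 - A.2) - (C.1 - A.1) * (B.2 - A.2)), ?_, ?_⟩
      · have e : ((x - A.1) * (C.2 - A.2) - (C.1 - A.1) * (y - A.2)) * (B.1 - A.1) +
            ((B.1 - A.1) * (y - A.2) - (x - A.1) * (B.2 - A.2)) * (C.1 - A.1) =
            (x - A.1) * ((B.1 - A.1) * (C.2 - A.2) - (C.1 - A.1) * (B.2 - A.2)) := by ring
        rw [div_mul_eq_mul_div, div_mul_eq_mul_div, add_assoc, ← add_div, e, mul_div_assoc,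
          div_self h, mul_one]
        ring
      · have e : ((x - A.1) * (C.2 - A.2) - (C.1 - A.1) * (y - A.2)) * (B.2 - A.2) +
            ((B.1 - A.1) * (y - A.2) - (x - A.1) * (B.2 - A.2)) * (C.2 - A.2) =
            (y - A.2) * ((B.1 - A.1) * (C.2 - A.2) - (C.1 - A.1) * (B.2 - A.2)) := by ring
        rw [div_mul_eq_mul_div, div_mul_eq_mul_div, add_assoc, ← add_div, e, mul_div_assoc,
          div_self h, mul_one]
        ring
    rw [← hs, ← ht]
    exact h2 s t
  apply poly_zero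
  have : ∀ x y : ℝ, eval ![x, y] (poly d) = 0 := fun x y => by rw [eval_poly]; exact h3 x y
  apply MvPolynomial.funext
  intro v
  have hv : v = ![v 0, v 1] := by
    ext i
    fin_cases i <;> rfl
  rw [hv, this]
  simp

/-- index of a triangle containing a given point (junk outside the rectangle) -/
noncomputable def kap (x : ℝ × ℝ) : Fin 16 := by
  classical
  exact if h : ∃ k : Fin 16, x ∈ convexHull ℝ (pt '' (tri k : Set (Fin 11))) then h.choose else 0

theorem kap_spec {x : ℝ × ℝ} (hx : x ∈ R) :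
    x ∈ convexHull ℝ (pt '' (tri (kap x) : Set (Fin 11))) := by
  have h : ∃ k : Fin 16, x ∈ convexHull ℝ (pt '' (tri k : Set (Fin 11))) :=
    cover x.1 x.2 hx.1.1 hx.1.2 hx.2.1 hx.2.2
  rw [kap, dif_pos h]
  exact h.choose_spec

theorem hull_sub_R (k : Fin 16) : convexHull ℝ (pt '' (tri k : Set (Fin 11))) ⊆ R := by
  refine convexHull_min ?_ R_convex
  rintro _ ⟨i, -, rfl⟩
  exact pt_mem_R i

theorem hull_closed (k : Fin 16) : IsClosed (convexHull ℝ (pt '' (tri k : Set (Fin 11)))) :=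
  ((Set.toFinite _).isCompact_convexHull ℝ).isClosed

noncomputable def FF (j : Fin 28) (x : ℝ × ℝ) : ℝ := ev (cr j (kap x)) x.1 x.2

theorem kap_agree (j : Fin 28) (k : Fin 16) {x : ℝ × ℝ}
    (hx : x ∈ convexHull ℝ (pt '' (tri k : Set (Fin 11)))) :
    Agree (cr j (kap x)) (cr j k) x :=
  agree_all j (kap x) k x ⟨kap_spec (hull_sub_R k hx), hx⟩

theorem FF_eq (j : Fin 28) (k : Fin 16) {x : ℝ × ℝ}
    (hx : x ∈ convexHull ℝ (pt '' (tri k : Set (Fin 11)))) : FF j x = ev (cr j k) x.1 x.2 :=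
  (kap_agree j k hx).1

theorem FF_deriv (j : Fin 28) (x : ℝ × ℝ) (hx : x ∈ R) :
    HasFDerivWithinAt (FF j) (evx (cr j (kap x)) x.1 x.2 • ContinuousLinearMap.fst ℝ ℝ ℝ +
      evy (cr j (kap x)) x.1 x.2 • ContinuousLinearMap.snd ℝ ℝ ℝ) R x := by
  have hk : ∀ k : Fin 16, HasFDerivWithinAt (FF j)
      (evx (cr j (kap x)) x.1 x.2 • ContinuousLinearMap.fst ℝ ℝ ℝ +
      evy (cr j (kap x)) x.1 x.2 • ContinuousLinearMap.snd ℝ ℝ ℝ)
      (convexHull ℝ (pt '' (tri k : Set (Fin 11)))) x := by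
    intro k
    by_cases hxk : x ∈ convexHull ℝ (pt '' (tri k : Set (Fin 11)))
    · obtain ⟨h1, h2, h3⟩ := kap_agree j k hxk
      rw [h2, h3]
      exact (hasFDerivAt_ev (cr j k) x).hasFDerivWithinAt.congr
        (fun y hy => FF_eq j k hy) (FF_eq j k hxk)
    · apply HasFDerivWithinAt.of_notMem_closure
      rw [(hull_closed k).closure_eq]
      exact hxk
  have hU : ∀ S : Finset (Fin 16), HasFDerivWithinAt (FF j)
      (evx (cr j (kap x)) x.1 x.2 • ContinuousLinearMap.fst ℝ ℝ ℝ +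
      evy (cr j (kap x)) x.1 x.2 • ContinuousLinearMap.snd ℝ ℝ ℝ)
      (⋃ k ∈ S, convexHull ℝ (pt '' (tri k : Set (Fin 11)))) x := by
    intro S
    classical
    induction S using Finset.induction_on with
    | empty => simp
    | insert a S ha ih =>
      rw [Finset.set_biUnion_insert]
      exact (hk a).union ih
  refine (hU Finset.univ).mono ?_
  intro y hy
  simp only [Finset.mem_univ, Set.iUnion_true, Set.mem_iUnion]
  exact ⟨kap y, kap_spec hy⟩

theorem R_eq_iUnion : R = ⋃ k : Fin 16, convexHull ℝ (pt '' (tri k : Set (Fin 11))) := by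
  apply Set.Subset.antisymm
  · intro y hy
    exact Set.mem_iUnion.2 ⟨kap y, kap_spec hy⟩
  · exact Set.iUnion_subset hull_sub_R

theorem FF_contDiffOn (j : Fin 28) : ContDiffOn ℝ 1 (FF j) R := by
  have h01 : (1 : WithTop ℕ∞) = 0 + 1 := by norm_num
  rw [h01, contDiffOn_succ_iff_hasFDerivWithinAt (by simp)]
  intro x hx
  refine ⟨R, ?_, by simp, fun x => evx (cr j (kap x)) x.1 x.2 • ContinuousLinearMap.fst ℝ ℝ ℝ +
      evy (cr j (kap x)) x.1 x.2 • ContinuousLinearMap.snd ℝ ℝ ℝ, fun y hy => FF_deriv j y hy, ?_⟩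
  · rw [Set.insert_eq_of_mem hx]
    exact self_mem_nhdsWithin
  · rw [contDiffOn_zero]
    have hlf : LocallyFinite (fun k : Fin 16 => convexHull ℝ (pt '' (tri k : Set (Fin 11)))) :=
      locallyFinite_of_finite _
    have hx : ContinuousOn (fun x : ℝ × ℝ => evx (cr j (kap x)) x.1 x.2) R := by
      rw [R_eq_iUnion]
      refine hlf.continuousOn_iUnion hull_closed (fun k => ?_)
      refine (continuous_evx (cr j k)).continuousOn.congr ?_
      intro y hy
      exact (kap_agree j k hy).2.1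
    have hy : ContinuousOn (fun x : ℝ × ℝ => evy (cr j (kap x)) x.1 x.2) R := by
      rw [R_eq_iUnion]
      refine hlf.continuousOn_iUnion hull_closed (fun k => ?_)
      refine (continuous_evy (cr j k)).continuousOn.congr ?_
      intro y hy
      exact (kap_agree j k hy).2.2
    exact (hx.smul continuousOn_const).add (hy.smul continuousOn_const)

end Helper293.Spl
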