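import Mathlib

set_option autoImplicit false

namespace Helper293.Spl

open MvPolynomial

/-- the bivariate cubic with the ten coefficients `c` -/
noncomputable def poly (c : Fin 10 → ℝ) : MvPolynomial (Fin 2) ℝ :=
  C (c 0) + C (c 1) * X 0 + C (c 2) * X 1 + C (c 3) * (X 0 * X 0) + C (c 4) * (X 0 * X 1) +
    C (c 5) * (X 1 * X 1) + C (c 6) * (X 0 * X 0 * X 0) + C (c 7) * (X 0 * X 0 * X 1) +
    C (c 8) * (X 0 * (X 1 * X 1)) + C (c 9) * (X 1 * X 1 * X 1)

noncomputable def ev (c : Fin 10 → ℝ) (x y : ℝ) : ℝ :=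
  c 0 + c 1 * x + c 2 * y + c 3 * (x * x) + c 4 * (x * y) + c 5 * (y * y) + c 6 * (x * x * x) +
    c 7 * (x * x * y) + c 8 * (x * (y * y)) + c 9 * (y * y * y)

noncomputable def evx (c : Fin 10 → ℝ) (x y : ℝ) : ℝ :=
  c 1 + 2 * c 3 * x + c 4 * y + 3 * c 6 * (x * x) + 2 * c 7 * (x * y) + c 8 * (y * y)

noncomputable def evy (c : Fin 10 → ℝ) (x y : ℝ) : ℝ :=
  c 2 + c 4 * x + 2 * c 5 * y + c 7 * (x * x) + 2 * c 8 * (x * y) + 3 * c 9 * (y * y)

theorem eval_poly (c : Fin 10 → ℝ) (x y : ℝ) : eval ![x, y] (poly c) = ev c x y := by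
  simp [poly, ev]

theorem eval_poly_x (c : Fin 10 → ℝ) (x y : ℝ) :
    eval ![x, y] (pderiv 0 (poly c)) = evx c x y := by
  simp [poly, evx, pderiv_X]
  ring

theorem eval_poly_y (c : Fin 10 → ℝ) (x y : ℝ) :
    eval ![x, y] (pderiv 1 (poly c)) = evy c x y := by
  simp [poly, evy, pderiv_X]
  ring

theorem deg_poly (c : Fin 10 → ℝ) : (poly c).totalDegree ≤ 3 := by
  have hC : ∀ a : ℝ, (C a : MvPolynomial (Fin 2) ℝ).totalDegree ≤ 0 := fun a => by simp
  have hX : ∀ i : Fin 2, (X i : MvPolynomial (Fin 2) ℝ).totalDegree ≤ 1 := fun i => by simp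
  have hM : ∀ (p q : MvPolynomial (Fin 2) ℝ) (a b n : ℕ), p.totalDegree ≤ a →
      q.totalDegree ≤ b → a + b ≤ n → (p * q).totalDegree ≤ n := fun p q a b n hp hq h =>
    (totalDegree_mul p q).trans ((Nat.add_le_add hp hq).trans h)
  have hA : ∀ (p q : MvPolynomial (Fin 2) ℝ), p.totalDegree ≤ 3 → q.totalDegree ≤ 3 →
      (p + q).totalDegree ≤ 3 := fun p q hp hq => (totalDegree_add p q).trans (max_le hp hq)
  have hXX : ∀ i j : Fin 2, (X i * X j : MvPolynomial (Fin 2) ℝ).totalDegree ≤ 2 := fun i j =>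
    hM _ _ 1 1 2 (hX i) (hX j) (by norm_num)
  unfold poly
  refine hA _ _ (hA _ _ (hA _ _ (hA _ _ (hA _ _ (hA _ _ (hA _ _ (hA _ _ (hA _ _ ?_ ?_) ?_) ?_) ?_)
    ?_) ?_) ?_) ?_) ?_
  · exact (hC _).trans (by norm_num)
  · exact hM _ _ 0 1 3 (hC _) (hX _) (by norm_num)
  · exact hM _ _ 0 1 3 (hC _) (hX _) (by norm_num)
  · exact hM _ _ 0 2 3 (hC _) (hXX _ _) (by norm_num)
  · exact hM _ _ 0 2 3 (hC _) (hXX _ _) (by norm_num)
  · exact hM _ _ 0 2 3 (hC _) (hXX _ _) (by norm_num)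
  · exact hM _ _ 0 3 3 (hC _) (hM _ _ 2 1 3 (hXX _ _) (hX _) (by norm_num)) (by norm_num)
  · exact hM _ _ 0 3 3 (hC _) (hM _ _ 2 1 3 (hXX _ _) (hX _) (by norm_num)) (by norm_num)
  · exact hM _ _ 0 3 3 (hC _) (hM _ _ 1 2 3 (hX _) (hXX _ _) (by norm_num)) (by norm_num)
  · exact hM _ _ 0 3 3 (hC _) (hM _ _ 2 1 3 (hXX _ _) (hX _) (by norm_num)) (by norm_num)

theorem poly_lin {ι : Type} (s : Finset ι) (g : ι → ℝ) (c : ι → Fin 10 → ℝ) :
    ∑ j ∈ s, g j • poly (c j) = poly (fun m => ∑ j ∈ s, g j * c j m) := by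
  classical
  induction s using Finset.induction_on with
  | empty => simp [poly]
  | insert a s ha ih =>
    rw [Finset.sum_insert ha, ih]
    simp only [Finset.sum_insert ha, poly, smul_eq_C_mul, C_add, C_mul]
    ring

theorem poly_zero (c : Fin 10 → ℝ) (h : poly c = 0) : ∀ m, c m = 0 := by
  have key : ∀ x y : ℝ, ev c x y = 0 := by
    intro x y
    rw [← eval_poly, h]
    simp
  have a00 := key 0 0
  have a10 := key 1 0
  have a20 := key (-1) 0
  have a30 := key 2 0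
  have a01 := key 0 1
  have a02 := key 0 (-1)
  have a03 := key 0 2
  have a11 := key 1 1
  have a12 := key 1 (-1)
  have a21 := key (-1) 1
  simp only [ev] at a00 a10 a20 a30 a01 a02 a03 a11 a12 a21
  intro m
  fin_cases m <;> simp <;> linarith

/-- a bivariate cubic vanishing at four points of a line vanishes on the line -/
theorem ev_line (c : Fin 10 → ℝ) (a b e f : ℝ)
    (h : ∀ s : ℝ, s = 0 ∨ s = 1 ∨ s = 2 ∨ s = 3 → ev c (a + s * e) (b + s * f) = 0) (s : ℝ) :
    ev c (a + s * e) (b + s * f) = 0 := by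
  have h0 := h 0 (by simp)
  have h1 := h 1 (by simp)
  have h2 := h 2 (by simp)
  have h3 := h 3 (by simp)
  unfold ev at *
  linear_combination ((1 - s) * (2 - s) * (3 - s) / 6) * h0 + (s * (2 - s) * (3 - s) / 2) * h1 +
    (s * (s - 1) * (3 - s) / 2) * h2 + (s * (s - 1) * (s - 2) / 6) * h3

theorem evx_line (c : Fin 10 → ℝ) (a b e f : ℝ)
    (h : ∀ s : ℝ, s = 0 ∨ s = 1 ∨ s = 2 → evx c (a + s * e) (b + s * f) = 0) (s : ℝ) :
    evx c (a + s * e) (b + s * f) = 0 := by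
  have h0 := h 0 (by simp)
  have h1 := h 1 (by simp)
  have h2 := h 2 (by simp)
  unfold evx at *
  linear_combination ((1 - s) * (2 - s) / 2) * h0 + (s * (2 - s)) * h1 +
    (s * (s - 1) / 2) * h2

theorem evy_line (c : Fin 10 → ℝ) (a b e f : ℝ)
    (h : ∀ s : ℝ, s = 0 ∨ s = 1 ∨ s = 2 → evy c (a + s * e) (b + s * f) = 0) (s : ℝ) :
    evy c (a + s * e) (b + s * f) = 0 := by
  have h0 := h 0 (by simp)
  have h1 := h 1 (by simp)
  have h2 := h 2 (by simp)
  unfold evy at *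
  linear_combination ((1 - s) * (2 - s) / 2) * h0 + (s * (2 - s)) * h1 +
    (s * (s - 1) / 2) * h2

/-- functions from a finite type to bivariate polynomials of degree at most three: the span of any
set of them is finite dimensional -/
theorem finite_span {ι : Type} [Finite ι] (S : Set (ι → MvPolynomial (Fin 2) ℝ))
    (h : ∀ p ∈ S, ∀ i, (p i).totalDegree ≤ 3) : Module.Finite ℝ (Submodule.span ℝ S) := by
  classical
  have hfin : Set.Finite {n : Fin 2 →₀ ℕ | (n.sum fun _ e => e) ≤ 3} := by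
    have : {n : Fin 2 →₀ ℕ | (n.sum fun _ e => e) ≤ 3} ⊆ Set.Iic (Finsupp.equivFunOnFinite.symm (fun _ => 3)) := by
      intro n hn i
      have hn' : (n.sum fun _ e => e) ≤ 3 := hn
      rw [Finsupp.sum_fintype _ _ (fun _ => rfl)] at hn'
      show n i ≤ 3
      exact (Finset.single_le_sum (fun _ _ => Nat.zero_le _) (Finset.mem_univ i)).trans hn'
    exact (Set.finite_Iic _).subset this
  haveI : Module.Finite ℝ (restrictTotalDegree (Fin 2) ℝ 3) := by
    haveI : Finite ↥{n : Fin 2 →₀ ℕ | (n.sum fun _ e => e) ≤ 3} := hfin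
    exact Module.Finite.of_basis (basisRestrictSupport ℝ {n : Fin 2 →₀ ℕ | (n.sum fun _ e => e) ≤ 3})
  let M : Submodule ℝ (ι → MvPolynomial (Fin 2) ℝ) :=
    Submodule.pi Set.univ (fun _ => restrictTotalDegree (Fin 2) ℝ 3)
  have hM : Submodule.span ℝ S ≤ M := by
    rw [Submodule.span_le]
    intro p hp i _
    exact (mem_restrictTotalDegree _ _ _).2 (h p hp i)
  let f : M →ₗ[ℝ] (ι → restrictTotalDegree (Fin 2) ℝ 3) :=
    { toFun := fun p i => ⟨p.1 i, p.2 i (Set.mem_univ i)⟩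
      map_add' := fun _ _ => rfl
      map_smul' := fun _ _ => rfl }
  have hf : Function.Injective f := by
    intro p q hpq
    apply Subtype.ext
    funext i
    exact congrArg Subtype.val (congrFun hpq i)
  haveI : Module.Finite ℝ M := Module.Finite.of_injective f hf
  exact Module.Finite.of_injective (Submodule.inclusion hM) (Submodule.inclusion_injective hM)

end Helper293.Spl
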