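import Pool.Agent.Helper293.Spl.SepTab
import Pool.Agent.Helper293.Spl.Tab
import Pool.Agent.Helper293.Spl.Poly

set_option autoImplicit false

namespace Helper293.Spl

/-- real coefficient vector of the `j`-th spline on the `k`-th triangle -/
noncomputable def cr (j : Fin 28) (k : Fin 16) (m : Fin 10) : ℝ := ((cf j k m : ℤ) : ℝ)

def rowL (c : List (List ℤ)) (k : Fin 16) : List ℤ := c.getD k.1 []

noncomputable def rr (d : List ℤ) (m : Fin 10) : ℝ := ((d.getD m.1 0 : ℤ) : ℝ)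

theorem exists_ten (d : List ℤ) (h : d.length = 10) :
    ∃ a0 a1 a2 a3 a4 a5 a6 a7 a8 a9 : ℤ, d = [a0, a1, a2, a3, a4, a5, a6, a7, a8, a9] := by
  match d, h with
  | [a0, a1, a2, a3, a4, a5, a6, a7, a8, a9], _ => exact ⟨a0, a1, a2, a3, a4, a5, a6, a7, a8, a9, rfl⟩

theorem ev_sub_of_lev (d1 d2 : List ℤ) (h1 : d1.length = 10) (h2 : d2.length = 10) (x y : ℤ)
    (h : lev (List.zipWith (fun a b : ℤ => a - b) d1 d2) x y = 0) :
    ev (fun m => rr d1 m - rr d2 m) x y = 0 := by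
  obtain ⟨a0, a1, a2, a3, a4, a5, a6, a7, a8, a9, rfl⟩ := exists_ten d1 h1
  obtain ⟨b0, b1, b2, b3, b4, b5, b6, b7, b8, b9, rfl⟩ := exists_ten d2 h2
  have h' : (((lev (List.zipWith (fun a b : ℤ => a - b) [a0, a1, a2, a3, a4, a5, a6, a7, a8, a9]
    [b0, b1, b2, b3, b4, b5, b6, b7, b8, b9]) x y : ℤ)) : ℝ) = 0 := by rw [h]; simp
  simp only [List.zipWith, lev] at h'
  push_cast at h'
  show ((a0 : ℝ) - b0) + ((a1 : ℝ) - b1) * x + ((a2 : ℝ) - b2) * y + ((a3 : ℝ) - b3) * (x * x) +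
    ((a4 : ℝ) - b4) * (x * y) + ((a5 : ℝ) - b5) * (y * y) + ((a6 : ℝ) - b6) * (x * x * x) +
    ((a7 : ℝ) - b7) * (x * x * y) + ((a8 : ℝ) - b8) * (x * (y * y)) +
    ((a9 : ℝ) - b9) * (y * y * y) = 0
  linarith

theorem evx_sub_of_lev (d1 d2 : List ℤ) (h1 : d1.length = 10) (h2 : d2.length = 10) (x y : ℤ)
    (h : levx (List.zipWith (fun a b : ℤ => a - b) d1 d2) x y = 0) :
    evx (fun m => rr d1 m - rr d2 m) x y = 0 := by
  obtain ⟨a0, a1, a2, a3, a4, a5, a6, a7, a8, a9, rfl⟩ := exists_ten d1 h1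
  obtain ⟨b0, b1, b2, b3, b4, b5, b6, b7, b8, b9, rfl⟩ := exists_ten d2 h2
  have h' : (((levx (List.zipWith (fun a b : ℤ => a - b) [a0, a1, a2, a3, a4, a5, a6, a7, a8, a9]
    [b0, b1, b2, b3, b4, b5, b6, b7, b8, b9]) x y : ℤ)) : ℝ) = 0 := by rw [h]; simp
  simp only [List.zipWith, levx] at h'
  push_cast at h'
  show ((a1 : ℝ) - b1) + 2 * ((a3 : ℝ) - b3) * x + ((a4 : ℝ) - b4) * y +
    3 * ((a6 : ℝ) - b6) * (x * x) + 2 * ((a7 : ℝ) - b7) * (x * y) + ((a8 : ℝ) - b8) * (y * y) = 0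
  linarith

theorem evy_sub_of_lev (d1 d2 : List ℤ) (h1 : d1.length = 10) (h2 : d2.length = 10) (x y : ℤ)
    (h : levy (List.zipWith (fun a b : ℤ => a - b) d1 d2) x y = 0) :
    evy (fun m => rr d1 m - rr d2 m) x y = 0 := by
  obtain ⟨a0, a1, a2, a3, a4, a5, a6, a7, a8, a9, rfl⟩ := exists_ten d1 h1
  obtain ⟨b0, b1, b2, b3, b4, b5, b6, b7, b8, b9, rfl⟩ := exists_ten d2 h2
  have h' : (((levy (List.zipWith (fun a b : ℤ => a - b) [a0, a1, a2, a3, a4, a5, a6, a7, a8, a9]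
    [b0, b1, b2, b3, b4, b5, b6, b7, b8, b9]) x y : ℤ)) : ℝ) = 0 := by rw [h]; simp
  simp only [List.zipWith, levy] at h'
  push_cast at h'
  show ((a2 : ℝ) - b2) + ((a4 : ℝ) - b4) * x + 2 * ((a5 : ℝ) - b5) * y +
    ((a7 : ℝ) - b7) * (x * x) + 2 * ((a8 : ℝ) - b8) * (x * y) + 3 * ((a9 : ℝ) - b9) * (y * y) = 0
  linarith

theorem ev_sub (c d : Fin 10 → ℝ) (x y : ℝ) (h : ev (fun m => c m - d m) x y = 0) :
    ev c x y = ev d x y := by
  unfold ev at *; linarith

theorem evx_sub (c d : Fin 10 → ℝ) (x y : ℝ) (h : evx (fun m => c m - d m) x y = 0) :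
    evx c x y = evx d x y := by
  unfold evx at *; linarith

theorem evy_sub (c d : Fin 10 → ℝ) (x y : ℝ) (h : evy (fun m => c m - d m) x y = 0) :
    evy c x y = evy d x y := by
  unfold evy at *; linarith

/-- value and gradient of two cubics agree -/
def Agree (c d : Fin 10 → ℝ) (x : ℝ × ℝ) : Prop :=
  ev c x.1 x.2 = ev d x.1 x.2 ∧ evx c x.1 x.2 = evx d x.1 x.2 ∧ evy c x.1 x.2 = evy d x.1 x.2

theorem Agree.symm {c d : Fin 10 → ℝ} {x : ℝ × ℝ} (h : Agree c d x) : Agree d c x :=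
  ⟨h.1.symm, h.2.1.symm, h.2.2.symm⟩

theorem agree_of_ok (c : List (List ℤ)) (k l : Fin 16) (a b : Fin 11)
    (hk : (rowL c k).length = 10) (hl : (rowL c l).length = 10)
    (h : okp c (k, l, a, b) = true) (x : ℝ × ℝ) (hx : x ∈ segment ℝ (pt a) (pt b)) :
    Agree (rr (rowL c k)) (rr (rowL c l)) x := by
  rw [segment_eq_image'] at hx
  obtain ⟨s, -, rfl⟩ := hx
  by_cases hab : a = b
  · subst hab
    simp only [okp, if_true, Bool.and_eq_true, beq_iff_eq] at h
    obtain ⟨⟨h1, h2⟩, h3⟩ := h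
    have e1 : (pt a + s • (pt a - pt a)).1 = (px a : ℝ) := by simp [pt]
    have e2 : (pt a + s • (pt a - pt a)).2 = (py a : ℝ) := by simp [pt]
    refine ⟨ev_sub _ _ _ _ ?_, evx_sub _ _ _ _ ?_, evy_sub _ _ _ _ ?_⟩
    · rw [e1, e2]; exact ev_sub_of_lev _ _ hk hl _ _ h1
    · rw [e1, e2]; exact evx_sub_of_lev _ _ hk hl _ _ h2
    · rw [e1, e2]; exact evy_sub_of_lev _ _ hk hl _ _ h3
  · simp only [okp, if_neg hab, Bool.and_eq_true, List.all_eq_true, beq_iff_eq] at h
    obtain ⟨h1, h2⟩ := h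
    have e1 : (pt a + s • (pt b - pt a)).1 = (px a : ℝ) + s * ((px b : ℝ) - px a) := by
      simp [pt]
    have e2 : (pt a + s • (pt b - pt a)).2 = (py a : ℝ) + s * ((py b : ℝ) - py a) := by
      simp [pt]
    refine ⟨ev_sub _ _ _ _ ?_, evx_sub _ _ _ _ ?_, evy_sub _ _ _ _ ?_⟩
    · rw [e1, e2]
      apply ev_line
      intro s hs
      have key : ∀ z : ℤ, z ∈ ([0, 1, 2, 3] : List ℤ) →
          ev (fun m => rr (rowL c k) m - rr (rowL c l) m) ((px a : ℝ) + (z : ℝ) * ((px b : ℝ) - px a))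
            ((py a : ℝ) + (z : ℝ) * ((py b : ℝ) - py a)) = 0 := by
        intro z hz
        have := ev_sub_of_lev _ _ hk hl _ _ (h1 z hz)
        push_cast at this
        exact this
      rcases hs with rfl | rfl | rfl | rfl
      · simpa using key 0 (by simp)
      · simpa using key 1 (by simp)
      · simpa using key 2 (by simp)
      · simpa using key 3 (by simp)
    · rw [e1, e2]
      apply evx_line
      intro s hs
      have key : ∀ z : ℤ, z ∈ ([0, 1, 2] : List ℤ) →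
          evx (fun m => rr (rowL c k) m - rr (rowL c l) m) ((px a : ℝ) + (z : ℝ) * ((px b : ℝ) - px a))
            ((py a : ℝ) + (z : ℝ) * ((py b : ℝ) - py a)) = 0 := by
        intro z hz
        have := evx_sub_of_lev _ _ hk hl _ _ (h2 z hz).1
        push_cast at this
        exact this
      rcases hs with rfl | rfl | rfl
      · simpa using key 0 (by simp)
      · simpa using key 1 (by simp)
      · simpa using key 2 (by simp)
    · rw [e1, e2]
      apply evy_line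
      intro s hs
      have key : ∀ z : ℤ, z ∈ ([0, 1, 2] : List ℤ) →
          evy (fun m => rr (rowL c k) m - rr (rowL c l) m) ((px a : ℝ) + (z : ℝ) * ((px b : ℝ) - px a))
            ((py a : ℝ) + (z : ℝ) * ((py b : ℝ) - py a)) = 0 := by
        intro z hz
        have := evy_sub_of_lev _ _ hk hl _ _ (h2 z hz).2
        push_cast at this
        exact this
      rcases hs with rfl | rfl | rfl
      · simpa using key 0 (by simp)
      · simpa using key 1 (by simp)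
      · simpa using key 2 (by simp)

theorem cr_eq (j : Fin 28) (k : Fin 16) : cr j k = rr (rowL (tab.getD j.1 []) k) := rfl

theorem tab_getD_mem (j : Fin 28) : tab.getD j.1 [] ∈ tab := by
  have h : j.1 < tab.length := j.2
  rw [List.getD_eq_getElem _ _ h]
  exact List.getElem_mem h

theorem row_len (j : Fin 28) (k : Fin 16) : (rowL (tab.getD j.1 []) k).length = 10 := by
  obtain ⟨h1, h2⟩ := tab_shape _ (tab_getD_mem j)
  have h : k.1 < (tab.getD j.1 []).length := by rw [h1]; exact k.2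
  rw [rowL, List.getD_eq_getElem _ _ h]
  exact h2 _ (List.getElem_mem h)

theorem agree_lt (j : Fin 28) (k l : Fin 16) (hkl : k < l) (x : ℝ × ℝ)
    (hx : x ∈ convexHull ℝ (pt '' (tri k : Set (Fin 11))) ∩
      convexHull ℝ (pt '' (tri l : Set (Fin 11)))) : Agree (cr j k) (cr j l) x := by
  rw [hull_inter] at hx
  rcases adj_ok k l hkl with h | ⟨p, hp, rfl, rfl, h⟩
  · rw [h] at hx
    simp at hx
  · rw [h] at hx
    have e : pt '' (({p.2.2.1, p.2.2.2} : Finset (Fin 11)) : Set (Fin 11)) =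
        {pt p.2.2.1, pt p.2.2.2} := by simp [Set.image_insert_eq]
    rw [e, convexHull_pair] at hx
    rw [cr_eq, cr_eq]
    have hok := List.all_eq_true.1 (tab_ok _ (tab_getD_mem j)) p hp
    exact agree_of_ok _ p.1 p.2.1 p.2.2.1 p.2.2.2 (row_len j _) (row_len j _) hok x hx

theorem agree_all (j : Fin 28) (k l : Fin 16) (x : ℝ × ℝ)
    (hx : x ∈ convexHull ℝ (pt '' (tri k : Set (Fin 11))) ∩
      convexHull ℝ (pt '' (tri l : Set (Fin 11)))) : Agree (cr j k) (cr j l) x := by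
  rcases lt_trichotomy k l with h | rfl | h
  · exact agree_lt j k l h x hx
  · exact ⟨rfl, rfl, rfl⟩
  · exact (agree_lt j l k h x ⟨hx.2, hx.1⟩).symm

end Helper293.Spl
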