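import Pool.Agent.Helper293.Spl.Basic

set_option autoImplicit false

namespace Helper293.Spl

theorem mem_hull_exists {t : Finset (Fin 11)} (P : Fin 11 ↪ ℝ × ℝ) {x : ℝ × ℝ}
    (hx : x ∈ convexHull ℝ (P '' (t : Set (Fin 11)))) :
    ∃ w : Fin 11 → ℝ, (∀ i ∈ t, 0 ≤ w i) ∧ ∑ i ∈ t, w i = 1 ∧ ∑ i ∈ t, w i • P i = x := by
  classical
  have h1 : P '' (t : Set (Fin 11)) = ((t.map P : Finset (ℝ × ℝ)) : Set (ℝ × ℝ)) := by
    simp
  rw [h1, Finset.mem_convexHull'] at hx
  obtain ⟨w, h0, hs, hx⟩ := hx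
  refine ⟨fun i => w (P i), ?_, ?_, ?_⟩
  · intro i hi
    exact h0 _ (Finset.mem_map_of_mem P hi)
  · rw [Finset.sum_map] at hs
    exact hs
  · rw [Finset.sum_map] at hx
    exact hx

theorem sep_inter {t s : Finset (Fin 11)} (P : Fin 11 ↪ ℝ × ℝ) (a b c : ℝ)
    (ht : ∀ i ∈ t, a * (P i).1 + b * (P i).2 + c ≤ 0 ∧
      (a * (P i).1 + b * (P i).2 + c = 0 → i ∈ s))
    (hs : ∀ i ∈ s, 0 ≤ a * (P i).1 + b * (P i).2 + c) :
    convexHull ℝ (P '' (t : Set (Fin 11))) ∩ convexHull ℝ (P '' (s : Set (Fin 11))) =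
      convexHull ℝ (P '' ((t ∩ s : Finset (Fin 11)) : Set (Fin 11))) := by
  classical
  apply Set.Subset.antisymm
  · rintro x ⟨hx1, hx2⟩
    obtain ⟨w, hw0, hw1, hwx⟩ := mem_hull_exists P hx1
    obtain ⟨u, hu0, hu1, hux⟩ := mem_hull_exists P hx2
    have e1 : x.1 = ∑ i ∈ t, w i * (P i).1 := by
      rw [← hwx]; simp [Prod.fst_sum]
    have e2 : x.2 = ∑ i ∈ t, w i * (P i).2 := by
      rw [← hwx]; simp [Prod.snd_sum]
    have e3 : x.1 = ∑ i ∈ s, u i * (P i).1 := by
      rw [← hux]; simp [Prod.fst_sum]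
    have e4 : x.2 = ∑ i ∈ s, u i * (P i).2 := by
      rw [← hux]; simp [Prod.snd_sum]
    have f1 : a * x.1 + b * x.2 + c = ∑ i ∈ t, w i * (a * (P i).1 + b * (P i).2 + c) := by
      rw [e1, e2]
      have : c = ∑ i ∈ t, w i * c := by rw [← Finset.sum_mul, hw1, one_mul]
      rw [Finset.mul_sum, Finset.mul_sum]
      nth_rewrite 1 [this]
      rw [← Finset.sum_add_distrib, ← Finset.sum_add_distrib]
      apply Finset.sum_congr rfl
      intro i _
      ring
    have f2 : a * x.1 + b * x.2 + c = ∑ i ∈ s, u i * (a * (P i).1 + b * (P i).2 + c) := by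
      rw [e3, e4]
      have : c = ∑ i ∈ s, u i * c := by rw [← Finset.sum_mul, hu1, one_mul]
      rw [Finset.mul_sum, Finset.mul_sum]
      nth_rewrite 1 [this]
      rw [← Finset.sum_add_distrib, ← Finset.sum_add_distrib]
      apply Finset.sum_congr rfl
      intro i _
      ring
    have g2 : 0 ≤ a * x.1 + b * x.2 + c := by
      rw [f2]
      exact Finset.sum_nonneg fun i hi => mul_nonneg (hu0 i hi) (hs i hi)
    have g1 : ∀ i ∈ t, w i * (a * (P i).1 + b * (P i).2 + c) ≤ 0 := fun i hi =>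
      mul_nonpos_of_nonneg_of_nonpos (hw0 i hi) (ht i hi).1
    have g3 : ∑ i ∈ t, w i * (a * (P i).1 + b * (P i).2 + c) = 0 :=
      le_antisymm (Finset.sum_nonpos g1) (f1 ▸ g2)
    have g4 : ∀ i ∈ t, w i * (a * (P i).1 + b * (P i).2 + c) = 0 :=
      (Finset.sum_eq_zero_iff_of_nonpos g1).1 g3
    have g5 : ∀ i ∈ t, i ∉ s → w i = 0 := by
      intro i hi his
      rcases mul_eq_zero.1 (g4 i hi) with h | h
      · exact h
      · exact absurd ((ht i hi).2 h) his
    have k1 : ∑ i ∈ t ∩ s, w i = 1 := by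
      rw [← hw1]
      apply Finset.sum_subset Finset.inter_subset_left
      intro i hi hn
      exact g5 i hi (fun h => hn (Finset.mem_inter.2 ⟨hi, h⟩))
    have k2 : ∑ i ∈ t ∩ s, w i • P i = x := by
      rw [← hwx]
      apply Finset.sum_subset Finset.inter_subset_left
      intro i hi hn
      rw [g5 i hi (fun h => hn (Finset.mem_inter.2 ⟨hi, h⟩)), zero_smul]
    rw [← k2]
    apply (convex_convexHull ℝ _).sum_mem
    · intro i hi
      exact hw0 i (Finset.mem_inter.1 hi).1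
    · exact k1
    · intro i hi
      exact subset_convexHull ℝ _ ⟨i, hi, rfl⟩
  · apply Set.subset_inter
    · apply convexHull_mono
      apply Set.image_mono
      exact_mod_cast Finset.inter_subset_left
    · apply convexHull_mono
      apply Set.image_mono
      exact_mod_cast Finset.inter_subset_right

end Helper293.Spl
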