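import Pool.Agent.Helper293.Spl.Sep

set_option autoImplicit false

namespace Helper293.Spl

def sepTab : List (List (ℤ × ℤ × ℤ)) :=
  [[(0, 0, 0), (1, 18, 0), (7, 22, 208), (7, 22, 208), (-1, -5, 0), (1, 18, 0), (1, 18, 0), (1, 18, 0), (1, 18, 0), (1, 18, 0), (1, 18, 0), (1, 18, 0), (1, 18, 0), (1, 18, 0), (7, 22, 208), (1, -5, 0)],
   [(1, 18, 0), (0, 0, 0), (-1, 8, -52), (1, -8, 52), (1, 5, 0), (1, -18, 0), (1, 5, 39), (1, 5, 39), (1, 5, 39), (1, -5, 0), (-2, 3, -78), (2, -3, 78), (-1, -5, -39), (1, 5, 39), (-1, -1, -64), (-2, 3, -78)],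
   [(7, 22, 208), (-1, 8, -52), (0, 0, 0), (5, 12, 208), (-7, -22, -208), (-1, 8, -52), (-1, 8, -52), (-1, 8, -52), (5, 12, 208), (-1, 8, -52), (-1, 8, -52), (-1, 8, -52), (-1, 8, -52), (5, 12, 208), (5, 12, 208), (-7, -22, -208)],
   [(7, 22, 208), (1, -8, 52), (5, 12, 208), (0, 0, 0), (-5, -12, -208), (-1, 20, -64), (-1, 20, -64), (-1, 20, -64), (-1, 20, -64), (-1, 20, -64), (-5, -12, -208), (-5, -12, -208), (-1, 20, -64), (-1, 20, -64), (1, 1, 64), (-5, -12, -208)],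
   [(-1, -5, 0), (1, 5, 0), (-7, -22, -208), (-5, -12, -208), (0, 0, 0), (1, 5, 0), (1, 5, 0), (1, 5, 0), (1, 5, 0), (0, 1, 0), (1, 5, 0), (1, 5, 0), (1, 5, 0), (1, 5, 0), (1, 5, 0), (1, -5, 0)],
   [(1, 18, 0), (1, -18, 0), (-1, 8, -52), (-1, 20, -64), (1, 5, 0), (0, 0, 0), (1, -18, 0), (-7, 22, -208), (7, -22, 208), (1, -5, 0), (-1, 18, 0), (1, -18, 0), (1, -18, 0), (1, -18, 0), (7, -22, 208), (1, 5, 0)],
   [(1, 18, 0), (1, 5, 39), (-1, 8, -52), (-1, 20, -64), (1, 5, 0), (1, -18, 0), (0, 0, 0), (1, 8, 52), (1, 8, 52), (1, -5, 0), (-2, -3, -78), (-2, -3, -78), (1, -5, 39), (1, -5, 39), (-1, -1, -64), (-2, -3, -78)],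
   [(1, 18, 0), (1, 5, 39), (-1, 8, -52), (-1, 20, -64), (1, 5, 0), (-7, 22, -208), (1, 8, 52), (0, 0, 0), (-5, 12, -208), (-7, 22, -208), (-1, -8, -52), (-1, -8, -52), (-1, -8, -52), (5, -12, 208), (5, -12, 208), (-7, 22, -208)],
   [(1, 18, 0), (1, 5, 39), (5, 12, 208), (-1, 20, -64), (1, 5, 0), (7, -22, 208), (1, 8, 52), (-5, 12, -208), (0, 0, 0), (-5, 12, -208), (-5, 12, -208), (-5, 12, -208), (-1, -20, -64), (1, 20, 64), (-1, 1, -64), (-5, 12, -208)],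
   [(1, 18, 0), (1, -5, 0), (-1, 8, -52), (-1, 20, -64), (0, 1, 0), (1, -5, 0), (1, -5, 0), (-7, 22, -208), (-5, 12, -208), (0, 0, 0), (1, -5, 0), (1, -5, 0), (1, -5, 0), (1, -5, 0), (1, -5, 0), (-1, -5, 0)],
   [(1, 18, 0), (-2, 3, -78), (-1, 8, -52), (-5, -12, -208), (1, 5, 0), (-1, 18, 0), (-2, -3, -78), (-1, -8, -52), (-5, 12, -208), (1, -5, 0), (0, 0, 0), (-1, 0, -36), (1, 0, 36), (1, 0, 36), (1, 0, 36), (1, -5, 0)],
   [(1, 18, 0), (2, -3, 78), (-1, 8, -52), (-5, -12, -208), (1, 5, 0), (1, -18, 0), (-2, -3, -78), (-1, -8, -52), (-5, 12, -208), (1, -5, 0), (-1, 0, -36), (0, 0, 0), (2, -3, 78), (2, -3, 78), (2, -3, 78), (-1, 0, -36)],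
   [(1, 18, 0), (-1, -5, -39), (-1, 8, -52), (-1, 20, -64), (1, 5, 0), (1, -18, 0), (1, -5, 39), (-1, -8, -52), (-1, -20, -64), (1, -5, 0), (1, 0, 36), (2, -3, 78), (0, 0, 0), (-1, 0, -44), (1, 0, 44), (-1, -5, -39)],
   [(1, 18, 0), (1, 5, 39), (5, 12, 208), (-1, 20, -64), (1, 5, 0), (1, -18, 0), (1, -5, 39), (5, -12, 208), (1, 20, 64), (1, -5, 0), (1, 0, 36), (2, -3, 78), (-1, 0, -44), (0, 0, 0), (-1, -1, -64), (-1, 0, -44)],
   [(7, 22, 208), (-1, -1, -64), (5, 12, 208), (1, 1, 64), (1, 5, 0), (7, -22, 208), (-1, -1, -64), (5, -12, 208), (-1, 1, -64), (1, -5, 0), (1, 0, 36), (2, -3, 78), (1, 0, 44), (-1, -1, -64), (0, 0, 0), (-1, -1, -64)],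
   [(1, -5, 0), (-2, 3, -78), (-7, -22, -208), (-5, -12, -208), (1, -5, 0), (1, 5, 0), (-2, -3, -78), (-7, 22, -208), (-5, 12, -208), (-1, -5, 0), (1, -5, 0), (-1, 0, -36), (-1, -5, -39), (-1, 0, -44), (-1, -1, -64), (0, 0, 0)]]

def sep (k l : Fin 16) : ℤ × ℤ × ℤ := (sepTab.getD k.1 []).getD l.1 (0, 0, 0)

def fz (v : ℤ × ℤ × ℤ) (i : Fin 11) : ℤ := v.1 * px i + v.2.1 * py i + v.2.2

def chk (v : ℤ × ℤ × ℤ) (k l : Fin 16) : Prop :=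
  (∀ i : Fin 3, fz v (tv k i) ≤ 0 ∧ (fz v (tv k i) = 0 → tv k i ∈ tri l)) ∧
    (∀ i : Fin 3, 0 ≤ fz v (tv l i))

instance (v : ℤ × ℤ × ℤ) (k l : Fin 16) : Decidable (chk v k l) := by
  unfold chk; infer_instance

set_option maxRecDepth 100000 in
theorem chk_all : ∀ k l : Fin 16, k ≠ l → chk (sep k l) k l ∨ chk (sep k l) l k := by
  decide +kernel

theorem mem_tri {k : Fin 16} {i : Fin 11} : i ∈ tri k ↔ ∃ j : Fin 3, tv k j = i := by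
  revert k i
  decide +kernel

theorem hull_inter_of_chk (v : ℤ × ℤ × ℤ) (k l : Fin 16) (h : chk v k l) :
    convexHull ℝ (pt '' (tri k : Set (Fin 11))) ∩ convexHull ℝ (pt '' (tri l : Set (Fin 11))) =
      convexHull ℝ (pt '' ((tri k ∩ tri l : Finset (Fin 11)) : Set (Fin 11))) := by
  have key : ∀ i : Fin 11, (v.1 : ℝ) * (ptE i).1 + (v.2.1 : ℝ) * (ptE i).2 + (v.2.2 : ℝ) =
      ((fz v i : ℤ) : ℝ) := by
    intro i
    simp [ptE, pt, fz]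
  apply sep_inter ptE (v.1 : ℝ) (v.2.1 : ℝ) (v.2.2 : ℝ)
  · intro i hi
    obtain ⟨j, rfl⟩ := mem_tri.1 hi
    rw [key]
    constructor
    · exact_mod_cast (h.1 j).1
    · intro h0
      exact (h.1 j).2 (by exact_mod_cast h0)
  · intro i hi
    obtain ⟨j, rfl⟩ := mem_tri.1 hi
    rw [key]
    exact_mod_cast h.2 j

theorem hull_inter (k l : Fin 16) :
    convexHull ℝ (pt '' (tri k : Set (Fin 11))) ∩ convexHull ℝ (pt '' (tri l : Set (Fin 11))) =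
      convexHull ℝ (pt '' ((tri k ∩ tri l : Finset (Fin 11)) : Set (Fin 11))) := by
  by_cases hkl : k = l
  · subst hkl
    simp
  · rcases chk_all k l hkl with h | h
    · exact hull_inter_of_chk _ k l h
    · rw [Set.inter_comm, Finset.inter_comm]
      exact hull_inter_of_chk _ l k h

theorem TT_inter : ∀ t ∈ TT, ∀ s ∈ TT,
    convexHull ℝ (t : Set (ℝ × ℝ)) ∩ convexHull ℝ (s : Set (ℝ × ℝ)) =
        convexHull ℝ ((t : Set (ℝ × ℝ)) ∩ (s : Set (ℝ × ℝ))) := by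
  intro t ht s hs
  obtain ⟨k, rfl⟩ := mem_TT.1 ht
  obtain ⟨l, rfl⟩ := mem_TT.1 hs
  rw [tS_coe, tS_coe, hull_inter, ← Set.image_inter pt_inj, Finset.coe_inter]

end Helper293.Spl
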